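import Mathlib

/-! # Chambers are given by sign vectors -/

namespace Pool.Agent.Helper446_MAG

theorem component_eq {n : ℕ} {ι : Type*} [Finite ι] (f : ι → (Fin n → ℝ) →ₗ[ℝ] ℝ) (x : Fin n → ℝ)
    (hx : ∀ j, f j x ≠ 0) :
    connectedComponentIn {y : Fin n → ℝ | ∀ j, f j y ≠ 0} x = {y | ∀ j, 0 < f j x * f j y} := by
  apply Set.Subset.antisymm
  · intro y hy j
    by_contra hcon
    have hyc : ∀ j, f j y ≠ 0 := connectedComponentIn_subset _ _ hy
    have hxc : x ∈ connectedComponentIn {y : Fin n → ℝ | ∀ j, f j y ≠ 0} x :=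
      mem_connectedComponentIn hx
    have hcont : Continuous (fun z => f j x * f j z) :=
      continuous_const.mul (LinearMap.continuous_of_finiteDimensional (f j))
    have h1 := (isPreconnected_connectedComponentIn
      (F := {y : Fin n → ℝ | ∀ j, f j y ≠ 0}) (x := x)).intermediate_value hy hxc hcont.continuousOn
    have h2 : (0 : ℝ) ∈ Set.Icc (f j x * f j y) (f j x * f j x) :=
      ⟨not_lt.mp hcon, mul_self_nonneg _⟩
    obtain ⟨z, hz, hz0⟩ := h1 h2
    have hzc : ∀ j, f j z ≠ 0 := connectedComponentIn_subset _ _ hz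
    exact (mul_ne_zero (hx j) (hzc j)) hz0
  · have hconv : Convex ℝ {y : Fin n → ℝ | ∀ j, 0 < f j x * f j y} := by
      intro y hy z hz a b ha hb hab j
      have e : f j x * f j (a • y + b • z) = a * (f j x * f j y) + b * (f j x * f j z) := by
        simp only [map_add, map_smul, smul_eq_mul]; ring
      rw [e]
      have h1 := hy j
      have h2 := hz j
      rcases ha.eq_or_lt with rfl | ha'
      · have hb1 : b = 1 := by linarith
        rw [hb1]; linarith
      · have h3 := mul_pos ha' h1
        have h4 := mul_nonneg hb h2.le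
        linarith
    apply hconv.isPreconnected.subset_connectedComponentIn
    · intro j
      exact mul_self_pos.mpr (hx j)
    · intro y hy j h0
      have := hy j
      rw [h0, mul_zero] at this
      exact lt_irrefl _ this

theorem separates_iff {n : ℕ} {ι : Type*} [Finite ι] (f : ι → (Fin n → ℝ) →ₗ[ℝ] ℝ) (x y : Fin n → ℝ)
    (hx : ∀ j, f j x ≠ 0) (hy : ∀ j, f j y ≠ 0) (j : ι) :
    (∀ p ∈ connectedComponentIn {y : Fin n → ℝ | ∀ j, f j y ≠ 0} x,
      ∀ q ∈ connectedComponentIn {y : Fin n → ℝ | ∀ j, f j y ≠ 0} y,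
      ∃ z ∈ segment ℝ p q, z ∈ LinearMap.ker (f j)) ↔ f j x * f j y < 0 := by
  constructor
  · intro h
    obtain ⟨z, ⟨a, b, ha, hb, hab, rfl⟩, hz⟩ := h x (mem_connectedComponentIn hx) y
      (mem_connectedComponentIn hy)
    rw [LinearMap.mem_ker] at hz
    simp only [map_add, map_smul, smul_eq_mul] at hz
    by_contra hcon
    have hpos : 0 < f j x * f j y :=
      lt_of_le_of_ne (not_lt.mp hcon) (mul_ne_zero (hx j) (hy j)).symm
    have h1 : 0 < f j x * f j x := mul_self_pos.mpr (hx j)
    have h2 : a * (f j x * f j x) + b * (f j x * f j y) = 0 := by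
      linear_combination (f j x) * hz
    rcases ha.eq_or_lt with rfl | ha'
    · have hb1 : b = 1 := by linarith
      rw [hb1] at h2; linarith
    · have h3 := mul_pos ha' h1
      have h4 := mul_nonneg hb hpos.le
      linarith
  · intro h p hp q hq
    rw [component_eq f x hx] at hp
    rw [component_eq f y hy] at hq
    have h1 := hp j
    have h2 := hq j
    have h3 : 0 < (f j x * f j p) * (f j y * f j q) := mul_pos h1 h2
    have h4 : f j p * f j q < 0 := by
      by_contra hcon
      push Not at hcon
      have : (f j x * f j y) * (f j p * f j q) ≤ 0 := mul_nonpos_of_nonpos_of_nonneg h.le hcon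
      have e : (f j x * f j p) * (f j y * f j q) = (f j x * f j y) * (f j p * f j q) := by ring
      linarith
    have hne : f j q - f j p ≠ 0 := by
      intro h0
      have h5 : f j q = f j p := by linarith
      rw [h5] at h4
      exact absurd h4 (not_lt.mpr (mul_self_nonneg _))
    have ha : 0 ≤ f j q / (f j q - f j p) := by
      rcases mul_neg_iff.mp h4 with ⟨g1, g2⟩ | ⟨g1, g2⟩
      · exact div_nonneg_of_nonpos g2.le (by linarith)
      · exact div_nonneg g2.le (by linarith)
    have hb : 0 ≤ (-f j p) / (f j q - f j p) := by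
      rcases mul_neg_iff.mp h4 with ⟨g1, g2⟩ | ⟨g1, g2⟩
      · exact div_nonneg_of_nonpos (by linarith) (by linarith)
      · exact div_nonneg (by linarith) (by linarith)
    refine ⟨(f j q / (f j q - f j p)) • p + ((-f j p) / (f j q - f j p)) • q,
      ⟨_, _, ha, hb, ?_, rfl⟩, ?_⟩
    · rw [← add_div, ← sub_eq_add_neg, div_self hne]
    · rw [LinearMap.mem_ker]
      simp only [map_add, map_smul, smul_eq_mul]
      field_simp
      ring



end Pool.Agent.Helper446_MAG
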