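import Mathlib

/-! # Counting nondegenerate tuples by a transfer matrix, and weightings -/

namespace Pool.Agent.Helper446_MAG

open PowerSeries

noncomputable def uu {V R : Type*} [Fintype V] [DecidableEq V] [CommRing R] (d : V → V → ℕ) : ℕ → V → PowerSeries R
  | 0, _ => 1
  | k + 1, a => ∑ b, (if a = b then 0 else (X : PowerSeries R) ^ d a b) * uu d k b

theorem uu_eq {V R : Type*} [Fintype V] [DecidableEq V] [CommRing R] (d : V → V → ℕ) (k : ℕ) :
    ∀ a : V, uu (R := R) d k a = ∑ x : Fin (k + 1) → V,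
      if x 0 = a ∧ (∀ i : Fin k, x i.castSucc ≠ x i.succ) then
        (X : PowerSeries R) ^ (∑ i : Fin k, d (x i.castSucc) (x i.succ)) else 0 := by
  induction k with
  | zero =>
    intro a
    rw [← (Equiv.funUnique (Fin 1) V).symm.sum_comp]
    simp [uu]
  | succ k ih =>
    intro a
    have h1 : ∀ y : Fin (k + 2) → V,
        (if y 0 = a ∧ (∀ i : Fin (k + 1), y i.castSucc ≠ y i.succ) then
          (X : PowerSeries R) ^ (∑ i : Fin (k + 1), d (y i.castSucc) (y i.succ)) else 0) =
        (fun p : V × (Fin (k + 1) → V) =>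
          if p.1 = a ∧ (p.1 ≠ p.2 0 ∧ ∀ i : Fin k, p.2 i.castSucc ≠ p.2 i.succ) then
          (X : PowerSeries R) ^ (d p.1 (p.2 0) + ∑ i : Fin k, d (p.2 i.castSucc) (p.2 i.succ))
          else 0) (y 0, fun i => y i.succ) := by
      intro y
      simp only [Fin.forall_fin_succ, Fin.sum_univ_succ, Fin.castSucc_zero, Fin.succ_castSucc]
    rw [Finset.sum_congr rfl fun y _ => h1 y]
    have h2 : ∑ y : Fin (k + 2) → V, (fun p : V × (Fin (k + 1) → V) =>
          if p.1 = a ∧ (p.1 ≠ p.2 0 ∧ ∀ i : Fin k, p.2 i.castSucc ≠ p.2 i.succ) then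
          (X : PowerSeries R) ^ (d p.1 (p.2 0) + ∑ i : Fin k, d (p.2 i.castSucc) (p.2 i.succ))
          else 0) (y 0, fun i => y i.succ) =
        ∑ p : V × (Fin (k + 1) → V), (fun p : V × (Fin (k + 1) → V) =>
          if p.1 = a ∧ (p.1 ≠ p.2 0 ∧ ∀ i : Fin k, p.2 i.castSucc ≠ p.2 i.succ) then
          (X : PowerSeries R) ^ (d p.1 (p.2 0) + ∑ i : Fin k, d (p.2 i.castSucc) (p.2 i.succ))
          else 0) p := by
      rw [← (Fin.consEquiv (fun _ : Fin (k + 2) => V)).sum_comp]
      refine Finset.sum_congr rfl fun p _ => ?_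
      simp [Fin.consEquiv]
    rw [h2, Fintype.sum_prod_type, Finset.sum_comm, uu]
    simp only [ih, Finset.mul_sum]
    rw [Finset.sum_comm]
    refine Finset.sum_congr rfl fun x _ => ?_
    rw [Finset.sum_eq_single (x 0), Finset.sum_eq_single a]
    · by_cases hx : ∀ i : Fin k, x i.castSucc ≠ x i.succ
      · by_cases ha : a = x 0
        · simp [ha]
        · rw [if_neg ha, if_pos ⟨rfl, hx⟩, if_pos ⟨rfl, ha, hx⟩, pow_add]
      · have e1 : ¬ (x 0 = x 0 ∧ ∀ i : Fin k, x i.castSucc ≠ x i.succ) := fun h => hx h.2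
        have e2 : ¬ (a = a ∧ (a ≠ x 0 ∧ ∀ i : Fin k, x i.castSucc ≠ x i.succ)) :=
          fun h => hx h.2.2
        rw [if_neg e1, if_neg e2, mul_zero]
    · intro b _ hb
      exact if_neg (fun h => hb h.1)
    · intro h
      exact absurd (Finset.mem_univ _) h
    · intro b _ hb
      rw [if_neg (fun h => hb h.1.symm : ¬ (x 0 = b ∧ ∀ i : Fin k, x i.castSucc ≠ x i.succ)),
        mul_zero]
    · intro h
      exact absurd (Finset.mem_univ _) h

theorem coeff_uu {V R : Type*} [Fintype V] [DecidableEq V] [CommRing R] (d : V → V → ℕ) (k l : ℕ) :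
    coeff l (∑ a, uu (R := R) d k a) =
      ((Nat.card {x : Fin (k + 1) → V // (∀ i : Fin k, x i.castSucc ≠ x i.succ) ∧
        ∑ i : Fin k, d (x i.castSucc) (x i.succ) = l} : ℕ) : R) := by
  classical
  simp only [uu_eq]
  rw [Finset.sum_comm]
  have h1 : ∀ x : Fin (k + 1) → V, ∑ a, (if x 0 = a ∧ (∀ i : Fin k, x i.castSucc ≠ x i.succ) then
      (X : PowerSeries R) ^ (∑ i : Fin k, d (x i.castSucc) (x i.succ)) else 0) =
      if (∀ i : Fin k, x i.castSucc ≠ x i.succ) then
      (X : PowerSeries R) ^ (∑ i : Fin k, d (x i.castSucc) (x i.succ)) else 0 := by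
    intro x
    rw [Finset.sum_eq_single (x 0)]
    · by_cases hx : ∀ i : Fin k, x i.castSucc ≠ x i.succ
      · rw [if_pos ⟨rfl, hx⟩, if_pos hx]
      · rw [if_neg (fun h => hx h.2), if_neg hx]
    · intro b _ hb
      exact if_neg (fun h => hb h.1.symm)
    · intro h
      exact absurd (Finset.mem_univ _) h
  rw [Finset.sum_congr rfl fun x _ => h1 x, map_sum]
  have h2 : ∀ x : Fin (k + 1) → V, coeff (R := R) l (if (∀ i : Fin k, x i.castSucc ≠ x i.succ) then
      (X : PowerSeries R) ^ (∑ i : Fin k, d (x i.castSucc) (x i.succ)) else 0) =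
      if ((∀ i : Fin k, x i.castSucc ≠ x i.succ) ∧
        ∑ i : Fin k, d (x i.castSucc) (x i.succ) = l) then 1 else 0 := by
    intro x
    by_cases hx : ∀ i : Fin k, x i.castSucc ≠ x i.succ
    · rw [if_pos hx, coeff_X_pow]
      by_cases hl : ∑ i : Fin k, d (x i.castSucc) (x i.succ) = l
      · rw [if_pos hl.symm, if_pos ⟨hx, hl⟩]
      · rw [if_neg (fun h => hl h.symm), if_neg (fun h => hl h.2)]
    · rw [if_neg hx, if_neg (fun h => hx h.1), map_zero]
  rw [Finset.sum_congr rfl fun x _ => h2 x, Finset.sum_boole, Nat.card_eq_fintype_card,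
    Fintype.card_subtype]


noncomputable def remW {V R : Type*} [Fintype V] [DecidableEq V] [CommRing R] (d : V → V → ℕ) (w : V → PowerSeries R) :
    ℕ → V → PowerSeries R
  | 0, a => w a
  | k + 1, a => ∑ b, (if a = b then 0 else (X : PowerSeries R) ^ d a b) * remW d w k b

theorem remW_dvd {V R : Type*} [Fintype V] [DecidableEq V] [CommRing R] (d : V → V → ℕ)
    (h1 : ∀ a b, a ≠ b → 1 ≤ d a b) (w : V → PowerSeries R) (n : ℕ) :
    ∀ a, (X : PowerSeries R) ^ n ∣ remW d w n a := by
  induction n with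
  | zero => intro a; simp
  | succ n ih =>
    intro a
    rw [remW]
    apply Finset.dvd_sum
    intro b _
    by_cases hab : a = b
    · simp [hab]
    · rw [if_neg hab, pow_succ']
      exact mul_dvd_mul (dvd_pow_self _ (by have := h1 a b hab; omega)) (ih b)

theorem remW_eq {V R : Type*} [Fintype V] [DecidableEq V] [CommRing R] (d : V → V → ℕ)
    (w : V → PowerSeries R)
    (hN : ∀ a, w a = 1 - ∑ b, (if a = b then 0 else (X : PowerSeries R) ^ d a b) * w b) (n : ℕ) :
    ∀ a, remW d w n a = uu d n a - remW d w (n + 1) a := by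
  induction n with
  | zero =>
    intro a
    simp only [remW, uu]
    exact hN a
  | succ n ih =>
    intro a
    have : remW d w (n + 1) a = ∑ b, (if a = b then 0 else (X : PowerSeries R) ^ d a b) * remW d w n b := rfl
    rw [this]
    have h2 : remW d w (n + 1 + 1) a = ∑ b, (if a = b then 0 else (X : PowerSeries R) ^ d a b) * remW d w (n + 1) b := rfl
    rw [h2]
    have h3 : uu (R := R) d (n + 1) a = ∑ b, (if a = b then 0 else (X : PowerSeries R) ^ d a b) * uu d n b := rfl
    rw [h3, ← Finset.sum_sub_distrib]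
    apply Finset.sum_congr rfl
    intro b _
    rw [ih b]
    ring

theorem remW_sum {V R : Type*} [Fintype V] [DecidableEq V] [CommRing R] (d : V → V → ℕ)
    (w : V → PowerSeries R)
    (hN : ∀ a, w a = 1 - ∑ b, (if a = b then 0 else (X : PowerSeries R) ^ d a b) * w b) (n : ℕ) :
    ∀ a, w a = ∑ k ∈ Finset.range n, (-1) ^ k * uu (R := R) d k a + (-1) ^ n * remW d w n a := by
  induction n with
  | zero => intro a; simp [remW]
  | succ n ih =>
    intro a
    rw [Finset.sum_range_succ]
    have h1 := ih a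
    have h2 := remW_eq d w hN n a
    rw [h1]
    rw [h2]
    ring

theorem coeff_weighting {V R : Type*} [Fintype V] [DecidableEq V] [CommRing R] (d : V → V → ℕ)
    (h0 : ∀ a, d a a = 0) (h1 : ∀ a b, a ≠ b → 1 ≤ d a b) (w : V → PowerSeries R)
    (hw : ∀ a, ∑ b, (X : PowerSeries R) ^ d a b * w b = 1) (l : ℕ) :
    coeff l (∑ a, w a) = ∑ k ∈ Finset.range (l + 1), (-1 : R) ^ k * coeff l (∑ a, uu (R := R) d k a) := by
  have hN : ∀ a, w a = 1 - ∑ b, (if a = b then 0 else (X : PowerSeries R) ^ d a b) * w b := by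
    intro a
    have h2 : ∑ b, (X : PowerSeries R) ^ d a b * w b
        = w a + ∑ b, (if a = b then 0 else (X : PowerSeries R) ^ d a b) * w b := by
      have h3 : w a = ∑ b, (if a = b then w b else 0) := by simp
      conv_rhs => lhs; rw [h3]
      rw [← Finset.sum_add_distrib]
      apply Finset.sum_congr rfl
      intro b _
      by_cases hab : a = b
      · subst hab; simp [h0]
      · simp [hab]
    have h4 := hw a
    rw [h2] at h4
    rw [← h4]; ring
  have hsum := remW_sum d w hN (l + 1)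
  have hcoeff : ∀ a, coeff l (w a) = ∑ k ∈ Finset.range (l + 1), (-1 : R) ^ k * coeff l (uu (R := R) d k a) := by
    intro a
    have hdvd : coeff l ((-1 : PowerSeries R) ^ (l + 1) * remW d w (l + 1) a) = 0 := by
      have : (X : PowerSeries R) ^ (l + 1) ∣ (-1 : PowerSeries R) ^ (l + 1) * remW d w (l + 1) a :=
        Dvd.dvd.mul_left (remW_dvd d h1 w (l + 1) a) _
      exact PowerSeries.X_pow_dvd_iff.mp this l (Nat.lt_succ_self l)
    rw [hsum a, map_add, hdvd, add_zero, map_sum]
    apply Finset.sum_congr rfl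
    intro k _
    have : ((-1 : PowerSeries R)) ^ k = C ((-1 : R) ^ k) := by simp
    rw [this, coeff_C_mul]
  rw [map_sum]
  simp_rw [hcoeff]
  rw [Finset.sum_comm]
  apply Finset.sum_congr rfl
  intro k _
  rw [map_sum, Finset.mul_sum]


end Pool.Agent.Helper446_MAG
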