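import Mathlib

/-! # Definitions: real hyperplane arrangements, tope graphs and magnitude Euler characteristics -/

namespace Pool.Agent.Helper446_MAG

/-- A (central, real) hyperplane arrangement in `ℝ^d`: a finite set of linear hyperplanes. -/
structure Arrangement (d : ℕ) where
  /-- the hyperplanes -/
  hyps : Finset (Submodule ℝ (Fin d → ℝ))
  /-- every member has codimension one -/
  hyperplane : ∀ H ∈ hyps, Module.finrank ℝ H + 1 = d

/-- The hyperplane `H` separates the sets `C` and `D`: every segment from a point of `C` to a point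
of `D` meets `H`. -/
def Separates {d : ℕ} (H : Submodule ℝ (Fin d → ℝ)) (C D : Set (Fin d → ℝ)) : Prop :=
  ∀ x ∈ C, ∀ y ∈ D, ∃ z ∈ segment ℝ x y, z ∈ H

namespace Arrangement

variable {d : ℕ} (A : Arrangement d)

/-- The complement of the union of the hyperplanes. -/
def compl : Set (Fin d → ℝ) := {x | ∀ H ∈ A.hyps, x ∉ H}

/-- Chambers: the connected components of the complement. -/
def Chamber : Type :=
  {C : Set (Fin d → ℝ) // ∃ x ∈ A.compl, C = connectedComponentIn A.compl x}

/-- The tope graph: chambers, adjacent when exactly one hyperplane separates them. -/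
def topeGraph : SimpleGraph A.Chamber where
  Adj C D := {H | H ∈ A.hyps ∧ Separates H C.1 D.1}.ncard = 1
  symm := ⟨by
    intro C D h
    have key : {H | H ∈ A.hyps ∧ Separates H D.1 C.1} = {H | H ∈ A.hyps ∧ Separates H C.1 D.1} := by
      ext H
      simp only [Set.mem_setOf_eq, Separates]
      constructor
      · rintro ⟨h1, h2⟩
        refine ⟨h1, fun x hx y hy => ?_⟩
        rw [segment_symm]
        exact h2 y hy x hx
      · rintro ⟨h1, h2⟩
        refine ⟨h1, fun x hx y hy => ?_⟩
        rw [segment_symm]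
        exact h2 y hy x hx
    rw [key]
    exact h⟩
  loopless := ⟨by
    rintro ⟨C, x, hx, rfl⟩ h
    obtain ⟨H, hH⟩ := Set.ncard_eq_one.1 h
    have h1 : H ∈ {H | H ∈ A.hyps ∧ Separates H (connectedComponentIn A.compl x)
        (connectedComponentIn A.compl x)} := by
      rw [hH]
      exact rfl
    obtain ⟨z, hz, hzH⟩ := h1.2 x (mem_connectedComponentIn hx) x (mem_connectedComponentIn hx)
    rw [segment_same] at hz
    rw [Set.mem_singleton_iff.1 hz] at hzH
    exact hx H h1.1 hzH⟩

end Arrangement

/-- The rank of the magnitude chain group `MC_{k,l}(G)`: the number of tuples `(x_0,…,x_k)` of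
vertices with `x_i ≠ x_{i+1}` and `∑ d(x_i,x_{i+1}) = l`. -/
noncomputable def rankMC {V : Type*} (G : SimpleGraph V) (k l : ℕ) : ℕ :=
  Nat.card {x : Fin (k + 1) → V // (∀ i : Fin k, x i.castSucc ≠ x i.succ) ∧
    ∑ i : Fin k, G.dist (x i.castSucc) (x i.succ) = l}

/-- The magnitude Euler characteristic `χ_l(G) = ∑_k (-1)^k rank MC_{k,l}(G)`. -/
noncomputable def eulerChar {V : Type*} (G : SimpleGraph V) (l : ℕ) : ℤ :=
  ∑ᶠ k : ℕ, (-1 : ℤ) ^ k * (rankMC G k l : ℤ)

end Pool.Agent.Helper446_MAG
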