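import Mathlib

/-! # Evaluation of absolutely convergent power series -/

namespace Pool.Agent.Helper446_MAG

open PowerSeries

/-- the power series `f` converges absolutely at `z`, with sum `v` -/
def Ev (z : ℂ) (f : PowerSeries ℂ) (v : ℂ) : Prop :=
  Summable (fun n => ‖coeff n f * z ^ n‖) ∧ HasSum (fun n => coeff n f * z ^ n) v

theorem ev_add {z : ℂ} {f g : PowerSeries ℂ} {v w : ℂ} (hf : Ev z f v) (hg : Ev z g w) :
    Ev z (f + g) (v + w) := by
  have h1 : ∀ n, coeff n (f + g) * z ^ n = coeff n f * z ^ n + coeff n g * z ^ n := by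
    intro n
    rw [map_add, add_mul]
  refine ⟨?_, ?_⟩
  · refine Summable.of_nonneg_of_le (fun n => norm_nonneg _) (fun n => ?_) (hf.1.add hg.1)
    rw [h1 n]
    exact norm_add_le _ _
  · have h2 := hf.2.add hg.2
    exact h2.congr_fun fun n => h1 n

theorem ev_mul {z : ℂ} {f g : PowerSeries ℂ} {v w : ℂ} (hf : Ev z f v) (hg : Ev z g w) :
    Ev z (f * g) (v * w) := by
  have h1 : ∀ n, coeff n (f * g) * z ^ n =
      ∑ kl ∈ Finset.HasAntidiagonal.antidiagonal n, (coeff kl.1 f * z ^ kl.1) * (coeff kl.2 g * z ^ kl.2) := by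
    intro n
    rw [PowerSeries.coeff_mul, Finset.sum_mul]
    refine Finset.sum_congr rfl fun kl hkl => ?_
    rw [← Finset.HasAntidiagonal.mem_antidiagonal.mp hkl, pow_add]
    ring
  have h2 := summable_norm_sum_mul_antidiagonal_of_summable_norm hf.1 hg.1
  have h3 := tsum_mul_tsum_eq_tsum_sum_antidiagonal_of_summable_norm hf.1 hg.1
  refine ⟨?_, ?_⟩
  · refine h2.congr fun n => ?_
    rw [h1 n]
  · rw [hf.2.tsum_eq, hg.2.tsum_eq] at h3
    have h4 := h2.of_norm.hasSum
    rw [← h3] at h4
    have h5 : (fun n => coeff n (f * g) * z ^ n) = fun n =>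
        ∑ kl ∈ Finset.HasAntidiagonal.antidiagonal n, (coeff kl.1 f * z ^ kl.1) * (coeff kl.2 g * z ^ kl.2) :=
      funext h1
    rw [h5]
    exact h4

theorem ev_const (z c : ℂ) : Ev z (C c) c := by
  have h1 : ∀ n, n ≠ 0 → coeff n (C c : PowerSeries ℂ) * z ^ n = 0 := by
    intro n hn
    rw [coeff_C, if_neg hn, zero_mul]
  refine ⟨?_, ?_⟩
  · refine summable_of_ne_finset_zero (s := {0}) fun n hn => ?_
    rw [Finset.mem_singleton] at hn
    rw [h1 n hn, norm_zero]
  · have h2 := hasSum_single (f := fun n => coeff n (C c : PowerSeries ℂ) * z ^ n) 0 h1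
    have h3 : coeff 0 (C c : PowerSeries ℂ) * z ^ 0 = c := by
      rw [coeff_C, if_pos rfl, pow_zero, mul_one]
    simp only [h3] at h2
    exact h2

theorem ev_X (z : ℂ) : Ev z X z := by
  have h1 : ∀ n, n ≠ 1 → coeff n (X : PowerSeries ℂ) * z ^ n = 0 := by
    intro n hn
    rw [coeff_X, if_neg hn, zero_mul]
  refine ⟨?_, ?_⟩
  · refine summable_of_ne_finset_zero (s := {1}) fun n hn => ?_
    rw [Finset.mem_singleton] at hn
    rw [h1 n hn, norm_zero]
  · have h2 := hasSum_single (f := fun n => coeff n (X : PowerSeries ℂ) * z ^ n) 1 h1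
    have h3 : coeff 1 (X : PowerSeries ℂ) * z ^ 1 = z := by
      rw [coeff_X, if_pos rfl, pow_one, one_mul]
    simp only [h3] at h2
    exact h2

theorem ev_inv {z c : ℂ} {j : ℕ} (hj : 1 ≤ j) (hz : ‖z‖ < 1) (hc : ‖c‖ ≤ 1) {g : PowerSeries ℂ}
    (hg : (1 - C c * X ^ j) * g = 1) : Ev z g (1 - c * z ^ j)⁻¹ := by
  classical
  -- the explicit inverse
  have h0 : (1 - C c * X ^ j) *
      (PowerSeries.mk fun n => if j ∣ n then c ^ (n / j) else 0 : PowerSeries ℂ) = 1 := by
    ext n
    rw [sub_mul, one_mul, map_sub, mul_assoc, coeff_C_mul, coeff_X_pow_mul', coeff_mk, coeff_one]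
    by_cases hn : j ≤ n
    · have hn0 : n ≠ 0 := by omega
      rw [if_pos hn, if_neg hn0, coeff_mk]
      by_cases hd : j ∣ n
      · have hd' : j ∣ n - j := Nat.dvd_sub hd (dvd_refl j)
        obtain ⟨k, rfl⟩ := hd
        have hk : 1 ≤ k := by
          rcases Nat.eq_zero_or_pos k with rfl | hk
          · simp at hn0
          · exact hk
        rw [if_pos (dvd_mul_right j k), if_pos hd']
        have e1 : j * k - j = j * (k - 1) := by
          rw [Nat.mul_sub, mul_one]
        rw [e1, Nat.mul_div_cancel_left _ hj, Nat.mul_div_cancel_left _ hj, ← pow_succ',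
          Nat.sub_add_cancel hk, sub_self]
      · have hd' : ¬ j ∣ n - j := by
          intro h
          apply hd
          have := Nat.dvd_add h (dvd_refl j)
          rwa [Nat.sub_add_cancel hn] at this
        rw [if_neg hd, if_neg hd', mul_zero, sub_zero]
    · rw [if_neg hn, mul_zero, sub_zero]
      by_cases hn0 : n = 0
      · subst hn0
        simp
      · rw [if_neg hn0, if_neg]
        intro hd
        exact hn (Nat.le_of_dvd (by omega) hd)
  have hgeq : g = PowerSeries.mk fun n => if j ∣ n then c ^ (n / j) else 0 := by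
    calc g = ((1 - C c * X ^ j) *
        (PowerSeries.mk fun n => if j ∣ n then c ^ (n / j) else 0 : PowerSeries ℂ)) * g := by
          rw [h0, one_mul]
      _ = ((1 - C c * X ^ j) * g) *
        (PowerSeries.mk fun n => if j ∣ n then c ^ (n / j) else 0 : PowerSeries ℂ) := by ring
      _ = _ := by rw [hg, one_mul]
  have hinj : Function.Injective fun m : ℕ => j * m := fun a b h =>
    Nat.eq_of_mul_eq_mul_left (by omega) h
  have hval : ∀ m : ℕ, coeff (j * m) g * z ^ (j * m) = (c * z ^ j) ^ m := by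
    intro m
    rw [hgeq, coeff_mk, if_pos (dvd_mul_right j m), Nat.mul_div_cancel_left _ hj, mul_pow, pow_mul]
  have hout : ∀ n : ℕ, n ∉ Set.range (fun m : ℕ => j * m) → coeff n g * z ^ n = 0 := by
    intro n hn
    have hd : ¬ j ∣ n := by
      rintro ⟨k, rfl⟩
      exact hn ⟨k, rfl⟩
    rw [hgeq, coeff_mk, if_neg hd, zero_mul]
  have hr : ‖c * z ^ j‖ < 1 := by
    rw [norm_mul, norm_pow]
    have h1 : ‖z‖ ^ j < 1 := pow_lt_one₀ (norm_nonneg _) hz (by omega)
    calc ‖c‖ * ‖z‖ ^ j ≤ 1 * ‖z‖ ^ j := by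
          exact mul_le_mul_of_nonneg_right hc (by positivity)
      _ < 1 := by rw [one_mul]; exact h1
  refine ⟨?_, ?_⟩
  · rw [← hinj.summable_iff (f := fun n => ‖coeff n g * z ^ n‖)
      (fun n hn => by rw [hout n hn, norm_zero])]
    have h1 : ((fun n => ‖coeff n g * z ^ n‖) ∘ fun m : ℕ => j * m) =
        fun m => ‖c * z ^ j‖ ^ m := by
      funext m
      simp only [Function.comp_apply]
      rw [hval m, norm_pow]
    rw [h1]
    exact summable_geometric_of_lt_one (norm_nonneg _) hr
  · rw [← hinj.hasSum_iff (f := fun n => coeff n g * z ^ n) (fun n hn => hout n hn)]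
    have h1 : ((fun n => coeff n g * z ^ n) ∘ fun m : ℕ => j * m) =
        fun m => (c * z ^ j) ^ m := by
      funext m
      simp only [Function.comp_apply]
      exact hval m
    rw [h1]
    exact hasSum_geometric_of_norm_lt_one hr


end Pool.Agent.Helper446_MAG
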