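import Pool.Agent.Helper446_MAG.Model

/-! # The Hamming distance on the model -/

namespace Pool.Agent.Helper446_MAG

theorem hd_loc (x y : Bool) (c c' : Fin 3) :
    (if x ≠ y then 1 else 0) +
      (if (![false, x, true] : Fin 3 → Bool) c ≠ (![false, y, true] : Fin 3 → Bool) c' then 1 else 0) +
      (if (![false, !x, true] : Fin 3 → Bool) c ≠ (![false, !y, true] : Fin 3 → Bool) c' then 1 else 0) =
    (if x = y then 0 else 1) + kap c c' (x != y) := by
  revert x y c c'
  decide

theorem hd_eq (a b : T) : hd a b = ∑ i : Fin 4, ((if ls a.1 i = ls b.1 i then 0 else 1) +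
    kap (a.2 i) (b.2 i) (ls a.1 i != ls b.1 i)) := by
  unfold hd
  rw [Finset.card_filter, Fintype.sum_prod_type]
  refine Finset.sum_congr rfl fun i _ => ?_
  rw [Fin.sum_univ_three]
  exact hd_loc (ls a.1 i) (ls b.1 i) (a.2 i) (b.2 i)

theorem ls_inj : ∀ D D' : Fin 8, (∀ i, ls D i = ls D' i) → D = D' := by
  decide

theorem loc_inj : ∀ (x : Bool) (c c' : Fin 3),
    (![false, x, true] : Fin 3 → Bool) c = (![false, x, true] : Fin 3 → Bool) c' →
    (![false, !x, true] : Fin 3 → Bool) c = (![false, !x, true] : Fin 3 → Bool) c' → c = c' := by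
  decide

theorem sg_inj (a b : T) (h : ∀ j, sg a j = sg b j) : a = b := by
  obtain ⟨D, c⟩ := a
  obtain ⟨D', c'⟩ := b
  have h1 : D = D' := ls_inj D D' fun i => h (i, 0)
  subst h1
  have h2 : c = c' := by
    funext i
    exact loc_inj (ls D i) (c i) (c' i) (h (i, 1)) (h (i, 2))
  rw [h2]



def sig (l : Bool) (e : Fin 3) (l' : Bool) (e' : Fin 3) : ℕ :=
  (if l = l' then 0 else 1) + kap e e' (l != l')

theorem hd_sig (a b : T) : hd a b = ∑ i : Fin 4, sig (ls a.1 i) (a.2 i) (ls b.1 i) (b.2 i) :=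
  hd_eq a b

theorem sig_cases : ∀ (l : Bool) (e : Fin 3) (l' : Bool) (e' : Fin 3),
    (l = l' ∧ e = e') ∨ (l ≠ l' ∧ sig l e l' e = 1 ∧ sig l' e l' e' + 1 = sig l e l' e') ∨
    ∃ e'' : Fin 3, sig l e l e'' = 1 ∧ sig l e'' l' e' + 1 = sig l e l' e' := by
  decide

theorem sig_self : ∀ (l : Bool) (e : Fin 3), sig l e l e = 0 := by decide

theorem ls_inj2 : ∀ D D' : Fin 8, (∀ k : Fin 4, ls D k = ls D' k) → D = D' := by decide

set_option maxRecDepth 100000 in
theorem sector : ∀ D D' : Fin 8, D ≠ D' → ∃ D'' : Fin 8, ∃ i : Fin 4, ls D i ≠ ls D' i ∧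
    ∀ k : Fin 4, ls D'' k = if k = i then ls D' k else ls D k := by
  decide

theorem sum_step (f g : Fin 4 → ℕ) (i : Fin 4) (h : ∀ k, k ≠ i → g k = f k) (hi : g i + 1 = f i) :
    ∑ k, g k + 1 = ∑ k, f k := by
  rw [← Finset.add_sum_erase Finset.univ f (Finset.mem_univ i),
    ← Finset.add_sum_erase Finset.univ g (Finset.mem_univ i), ← hi]
  have : ∑ k ∈ Finset.univ.erase i, g k = ∑ k ∈ Finset.univ.erase i, f k :=
    Finset.sum_congr rfl (fun k hk => h k (Finset.ne_of_mem_erase hk))
  omega

theorem sum_one (f : Fin 4 → ℕ) (i : Fin 4) (h : ∀ k, k ≠ i → f k = 0) (hi : f i = 1) :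
    ∑ k, f k = 1 := by
  rw [Finset.sum_eq_single i (fun k _ hk => h k hk) (fun h => absurd (Finset.mem_univ i) h), hi]

theorem hd_step (a b : T) (h : a ≠ b) : ∃ c : T, hd a c = 1 ∧ hd c b + 1 = hd a b := by
  obtain ⟨D, c⟩ := a
  obtain ⟨D', c'⟩ := b
  by_cases hiii : ∃ i, ∃ e'' : Fin 3, sig (ls D i) (c i) (ls D i) e'' = 1 ∧
      sig (ls D i) e'' (ls D' i) (c' i) + 1 = sig (ls D i) (c i) (ls D' i) (c' i)
  · obtain ⟨i, e'', h1, h2⟩ := hiii
    refine ⟨(D, Function.update c i e''), ?_, ?_⟩
    · rw [hd_sig]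
      apply sum_one _ i
      · intro k hk
        simp only [Function.update_of_ne hk]
        exact sig_self _ _
      · simp only [Function.update_self]
        exact h1
    · rw [hd_sig, hd_sig]
      apply sum_step _ _ i
      · intro k hk
        simp only [Function.update_of_ne hk]
      · simp only [Function.update_self]
        exact h2
  · have hcase : ∀ i, (ls D i = ls D' i ∧ c i = c' i) ∨ (ls D i ≠ ls D' i ∧
        sig (ls D i) (c i) (ls D' i) (c i) = 1 ∧
        sig (ls D' i) (c i) (ls D' i) (c' i) + 1 = sig (ls D i) (c i) (ls D' i) (c' i)) := by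
      intro i
      rcases sig_cases (ls D i) (c i) (ls D' i) (c' i) with h1 | h1 | ⟨e'', h1⟩
      · exact Or.inl h1
      · exact Or.inr h1
      · exact absurd ⟨i, e'', h1⟩ hiii
    have hD : D ≠ D' := by
      rintro rfl
      apply h
      have : c = c' := by
        ext1 i
        rcases hcase i with h1 | h1
        · exact h1.2
        · exact absurd rfl h1.1
      rw [this]
    obtain ⟨D'', i, hi, hk⟩ := sector D D' hD
    have hi2 := (hcase i).resolve_left (fun h1 => hi h1.1)
    have hki : ls D'' i = ls D' i := by rw [hk i, if_pos rfl]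
    have hkn : ∀ k, k ≠ i → ls D'' k = ls D k := fun k hne => by rw [hk k, if_neg hne]
    refine ⟨(D'', c), ?_, ?_⟩
    · rw [hd_sig]
      apply sum_one _ i
      · intro k hne
        simp only [hkn k hne]
        exact sig_self _ _
      · simp only [hki]
        exact hi2.2.1
    · rw [hd_sig, hd_sig]
      apply sum_step _ _ i
      · intro k hne
        simp only [hkn k hne]
      · simp only [hki]
        exact hi2.2.2



theorem dist_eq_of_step {V : Type*} (G : SimpleGraph V) (h : V → V → ℕ)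
    (h0 : ∀ a b, h a b = 0 ↔ a = b) (hadj : ∀ a b, G.Adj a b ↔ h a b = 1)
    (htri : ∀ a b c, h a c ≤ h a b + h b c)
    (hstep : ∀ a b, a ≠ b → ∃ c, h a c = 1 ∧ h c b + 1 = h a b) (a b : V) :
    G.dist a b = h a b := by
  have hw : ∀ n : ℕ, ∀ x y : V, h x y = n → ∃ p : G.Walk x y, p.length = n := by
    intro n
    induction n with
    | zero =>
      intro x y hxy
      have : x = y := (h0 x y).1 hxy
      subst this
      exact ⟨SimpleGraph.Walk.nil, rfl⟩
    | succ n ih =>
      intro x y hxy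
      have hne : x ≠ y := by
        intro hc
        have := (h0 x y).2 hc
        omega
      obtain ⟨c, hc1, hc2⟩ := hstep x y hne
      obtain ⟨p, hp⟩ := ih c y (by omega)
      refine ⟨SimpleGraph.Walk.cons ((hadj x c).2 hc1) p, ?_⟩
      simp [hp]
  have hl : ∀ x y : V, ∀ p : G.Walk x y, h x y ≤ p.length := by
    intro x y p
    induction p with
    | nil => simp [(h0 _ _).2 rfl]
    | cons hadj' p ih =>
      have h1 := (hadj _ _).1 hadj'
      have h2 := htri _ _ _ |>.trans (Nat.add_le_add (le_of_eq h1) ih)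
      simp only [SimpleGraph.Walk.length_cons]
      omega
  obtain ⟨p, hp⟩ := hw (h a b) a b rfl
  apply le_antisymm
  · rw [← hp]; exact SimpleGraph.dist_le p
  · obtain ⟨q, hq⟩ := (SimpleGraph.Walk.reachable p).exists_walk_length_eq_dist
    rw [← hq]
    exact hl a b q



end Pool.Agent.Helper446_MAG
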