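import Pool.Agent.Helper446_MAG.Model

/-! # The hyperplanes and the representatives -/

namespace Pool.Agent.Helper446_MAG

theorem fn_apply (j : Fin 4 × Fin 3) (x : Fin 6 → ℝ) : fn j x = ∑ i, ((cf j i : ℤ) : ℝ) * x i := by
  simp only [fn, LinearMap.sum_apply, LinearMap.smul_apply, LinearMap.proj_apply, smul_eq_mul]

theorem int_sign : ∀ (D : Fin 8) (e0 e1 e2 e3 : Fin 3) (j : Fin 4 × Fin 3),
    (sg (D, ![e0, e1, e2, e3]) j = true → 0 < ∑ i, cf j i * rp (D, ![e0, e1, e2, e3]) i) ∧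
    (sg (D, ![e0, e1, e2, e3]) j = false → ∑ i, cf j i * rp (D, ![e0, e1, e2, e3]) i < 0) := by
  decide +kernel

theorem fn_rp (a : T) (j : Fin 4 × Fin 3) :
    fn j (fun i => ((rp a i : ℤ) : ℝ)) = ((∑ i, cf j i * rp a i : ℤ) : ℝ) := by
  rw [fn_apply]
  push_cast
  rfl

theorem rp_sign (a : T) (j : Fin 4 × Fin 3) :
    (sg a j = true → 0 < fn j (fun i => ((rp a i : ℤ) : ℝ))) ∧
    (sg a j = false → fn j (fun i => ((rp a i : ℤ) : ℝ)) < 0) := by
  obtain ⟨D, c⟩ := a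
  have hc : c = ![c 0, c 1, c 2, c 3] := by
    funext i
    fin_cases i <;> rfl
  rw [hc, fn_rp]
  obtain ⟨h1, h2⟩ := int_sign D (c 0) (c 1) (c 2) (c 3) j
  exact ⟨fun h => by exact_mod_cast h1 h, fun h => by exact_mod_cast h2 h⟩

theorem cf_inj : ∀ j k : Fin 4 × Fin 3,
    (∀ a b : Fin 6, cf j b * cf k a = cf j a * cf k b) → j = k := by
  decide +kernel

theorem fn_pair (j k : Fin 4 × Fin 3) (a b : Fin 6) :
    fn k (fun i => ((cf j b : ℤ) : ℝ) * (if i = a then 1 else 0) -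
      ((cf j a : ℤ) : ℝ) * (if i = b then 1 else 0)) =
    ((cf j b * cf k a - cf j a * cf k b : ℤ) : ℝ) := by
  rw [fn_apply]
  simp only [mul_sub, Finset.sum_sub_distrib]
  have h : ∀ (r : ℝ) (d : Fin 6), ∑ i, ((cf k i : ℤ) : ℝ) * (r * (if i = d then 1 else 0)) =
      r * ((cf k d : ℤ) : ℝ) := by
    intro r d
    rw [Finset.sum_eq_single d]
    · rw [if_pos rfl]
      ring
    · intro i _ hi
      rw [if_neg hi]
      ring
    · intro hd
      exact absurd (Finset.mem_univ d) hd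
  rw [h, h]
  push_cast
  ring

theorem ker_inj (j k : Fin 4 × Fin 3) (h : LinearMap.ker (fn j) = LinearMap.ker (fn k)) : j = k := by
  apply cf_inj
  intro a b
  have h1 : (fun i : Fin 6 => ((cf j b : ℤ) : ℝ) * (if i = a then 1 else 0) -
      ((cf j a : ℤ) : ℝ) * (if i = b then 1 else 0)) ∈ LinearMap.ker (fn j) := by
    rw [LinearMap.mem_ker, fn_pair]
    have : cf j b * cf j a - cf j a * cf j b = 0 := by ring
    rw [this, Int.cast_zero]
  rw [h, LinearMap.mem_ker, fn_pair] at h1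
  have h2 : cf j b * cf k a - cf j a * cf k b = 0 := by exact_mod_cast h1
  linarith

theorem cf_ne : ∀ j : Fin 4 × Fin 3, ∃ a : Fin 6, cf j a ≠ 0 := by
  decide +kernel

theorem finrank_ker (j : Fin 4 × Fin 3) : Module.finrank ℝ (LinearMap.ker (fn j)) + 1 = 6 := by
  obtain ⟨a, ha⟩ := cf_ne j
  have hne : fn j ≠ 0 := by
    intro h
    have h1 := LinearMap.congr_fun h (fun i => if i = a then (1 : ℝ) else 0)
    rw [fn_apply, LinearMap.zero_apply, Finset.sum_eq_single a] at h1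
    · rw [if_pos rfl, mul_one] at h1
      exact ha (by exact_mod_cast h1)
    · intro i _ hi
      rw [if_neg hi, mul_zero]
    · intro hd
      exact absurd (Finset.mem_univ a) hd
  have hs : LinearMap.range (fn j) = ⊤ := LinearMap.range_eq_top.2 (LinearMap.surjective hne)
  have h2 := LinearMap.finrank_range_add_finrank_ker (fn j)
  rw [hs, finrank_top, Module.finrank_self, Module.finrank_fin_fun] at h2
  omega




theorem J7b_local (D : Fin 8) (i : Fin 4) (l z w : ℝ) (hw : w = z - l) (hl0 : l ≠ 0) (hz0 : z ≠ 0)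
    (hw0 : w ≠ 0) (h : ls D i = true ↔ 0 < l) :
    ∃ e : Fin 3, ∀ c : Fin 4 → Fin 3, c i = e →
      ((sg (D, c) (i, 0) = true ↔ 0 < l) ∧ (sg (D, c) (i, 1) = true ↔ 0 < z) ∧
        (sg (D, c) (i, 2) = true ↔ 0 < w)) := by
  rcases lt_or_gt_of_ne hz0 with hz | hz <;> rcases lt_or_gt_of_ne hw0 with hw' | hw'
  · refine ⟨0, fun c hc => ⟨?_, ?_, ?_⟩⟩
    · simpa [sg] using h
    · simp [sg, hc, hz.le]
    · simp [sg, hc, hw'.le]
  · refine ⟨1, fun c hc => ⟨?_, ?_, ?_⟩⟩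
    · simpa [sg] using h
    · have hl : ¬ 0 < l := by intro hl; linarith
      have hl' : ls D i = false := by
        rw [← Bool.not_eq_true, h]; exact hl
      simp [sg, hc, hl', hz.le]
    · have hl : ¬ 0 < l := by intro hl; linarith
      have hl' : ls D i = false := by
        rw [← Bool.not_eq_true, h]; exact hl
      simp [sg, hc, hl', hw']
  · refine ⟨1, fun c hc => ⟨?_, ?_, ?_⟩⟩
    · simpa [sg] using h
    · have hl : 0 < l := by linarith
      have hl' : ls D i = true := h.2 hl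
      simp [sg, hc, hl', hz]
    · have hl : 0 < l := by linarith
      have hl' : ls D i = true := h.2 hl
      simp [sg, hc, hl', hw'.le]
  · refine ⟨2, fun c hc => ⟨?_, ?_, ?_⟩⟩
    · simpa [sg] using h
    · simp [sg, hc, hz]
    · simp [sg, hc, hw']

theorem J7b_sector (s t : ℝ) (h0 : t ≠ 0) (h1 : s - t ≠ 0) (h2 : s ≠ 0) (h3 : s + t ≠ 0) :
    ∃ D : Fin 8, (ls D 0 = true ↔ 0 < t) ∧ (ls D 1 = true ↔ 0 < s - t) ∧
      (ls D 2 = true ↔ 0 < s) ∧ (ls D 3 = true ↔ 0 < s + t) := by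
  rcases lt_or_gt_of_ne h0 with a0 | a0 <;> rcases lt_or_gt_of_ne h1 with a1 | a1 <;>
    rcases lt_or_gt_of_ne h2 with a2 | a2 <;> rcases lt_or_gt_of_ne h3 with a3 | a3
  · exact ⟨4, by simp [ls, a0.le, a1.le, a2.le, a3.le, -sub_pos]⟩
  · exfalso; linarith
  · exfalso; linarith
  · exfalso; linarith
  · exact ⟨5, by simp [ls, a0.le, a1, a2.le, a3.le, -sub_pos]⟩
  · exfalso; linarith
  · exact ⟨6, by simp [ls, a0.le, a1, a2, a3.le, -sub_pos]⟩
  · exact ⟨7, by simp [ls, a0.le, a1, a2, a3, -sub_pos]⟩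
  · exact ⟨3, by simp [ls, a0, a1.le, a2.le, a3.le, -sub_pos]⟩
  · exact ⟨2, by simp [ls, a0, a1.le, a2.le, a3, -sub_pos]⟩
  · exfalso; linarith
  · exact ⟨1, by simp [ls, a0, a1.le, a2, a3, -sub_pos]⟩
  · exfalso; linarith
  · exfalso; linarith
  · exfalso; linarith
  · exact ⟨0, by simp [ls, a0, a1, a2, a3, -sub_pos]⟩

theorem J7b_fn (x : Fin 6 → ℝ) :
    fn (0, 0) x = x 1 ∧ fn (0, 1) x = x 2 ∧ fn (0, 2) x = x 2 - x 1 ∧
    fn (1, 0) x = x 0 - x 1 ∧ fn (1, 1) x = x 3 ∧ fn (1, 2) x = x 3 - (x 0 - x 1) ∧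
    fn (2, 0) x = x 0 ∧ fn (2, 1) x = x 4 ∧ fn (2, 2) x = x 4 - x 0 ∧
    fn (3, 0) x = x 0 + x 1 ∧ fn (3, 1) x = x 5 ∧ fn (3, 2) x = x 5 - (x 0 + x 1) := by
  refine ⟨?_, ?_, ?_, ?_, ?_, ?_, ?_, ?_, ?_, ?_, ?_, ?_⟩ <;>
    simp [fn, cf, Fin.sum_univ_succ] <;> ring

theorem exists_sign (x : Fin 6 → ℝ) (hx : ∀ j, fn j x ≠ 0) :
    ∃ a : T, ∀ j, (sg a j = true ↔ 0 < fn j x) := by
  obtain ⟨f00, f01, f02, f10, f11, f12, f20, f21, f22, f30, f31, f32⟩ := J7b_fn x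
  obtain ⟨D, d0, d1, d2, d3⟩ := J7b_sector (x 0) (x 1) (f00 ▸ hx (0, 0)) (f10 ▸ hx (1, 0))
    (f20 ▸ hx (2, 0)) (f30 ▸ hx (3, 0))
  have key : ∀ i : Fin 4, ∃ e : Fin 3, ∀ c : Fin 4 → Fin 3, c i = e →
      ((sg (D, c) (i, 0) = true ↔ 0 < fn (i, 0) x) ∧ (sg (D, c) (i, 1) = true ↔ 0 < fn (i, 1) x) ∧
        (sg (D, c) (i, 2) = true ↔ 0 < fn (i, 2) x)) := by
    intro i
    apply J7b_local D i _ _ _ _ (hx _) (hx _) (hx _)
    · fin_cases i
      · simpa [f00] using d0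
      · simpa [f10] using d1
      · simpa [f20] using d2
      · simpa [f30] using d3
    · fin_cases i
      · simp [f00, f01, f02]
      · simp [f10, f11, f12]
      · simp [f20, f21, f22]
      · simp [f30, f31, f32]
  choose e he using key
  refine ⟨(D, e), ?_⟩
  rintro ⟨i, m⟩
  obtain ⟨k0, k1, k2⟩ := he i e rfl
  fin_cases m
  · exact k0
  · exact k1
  · exact k2



end Pool.Agent.Helper446_MAG
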