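import Pool.Agent.Helper446_MAG.Defs
import Pool.Agent.Helper446_MAG.Chambers
import Pool.Agent.Helper446_MAG.ModelHyp
import Pool.Agent.Helper446_MAG.ModelDist

/-! # The arrangement and its tope graph -/

namespace Pool.Agent.Helper446_MAG

/-- The arrangement of the twelve hyperplanes `ker (fn j)` in `ℝ^6`. -/
noncomputable def arr : Arrangement 6 where
  hyps := Finset.univ.map ⟨fun j : Fin 4 × Fin 3 => LinearMap.ker (fn j), fun j k h => ker_inj j k h⟩
  hyperplane := by
    intro H hH
    rw [Finset.mem_map] at hH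
    obtain ⟨j, -, rfl⟩ := hH
    exact finrank_ker j

theorem mem_arr (H : Submodule ℝ (Fin 6 → ℝ)) : H ∈ arr.hyps ↔ ∃ j, LinearMap.ker (fn j) = H := by
  simp [arr]

theorem arr_card : arr.hyps.card = 12 := by
  simp [arr]

theorem arr_compl : arr.compl = {y : Fin 6 → ℝ | ∀ j, fn j y ≠ 0} := by
  ext x
  constructor
  · intro h j hj
    exact h _ ((mem_arr _).2 ⟨j, rfl⟩) (LinearMap.mem_ker.2 hj)
  · intro h H hH hx
    obtain ⟨j, rfl⟩ := (mem_arr _).1 hH
    exact h j (LinearMap.mem_ker.1 hx)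

/-- the real representative -/
def rpR (a : T) : Fin 6 → ℝ := fun i => ((rp a i : ℤ) : ℝ)

theorem rpR_pos (a : T) (j : Fin 4 × Fin 3) : sg a j = true ↔ 0 < fn j (rpR a) := by
  have h := rp_sign a j
  constructor
  · exact h.1
  · intro h1
    by_contra h2
    have := h.2 (by simpa using h2)
    exact absurd h1 (not_lt.2 this.le)

theorem rpR_neg (a : T) (j : Fin 4 × Fin 3) : sg a j = false ↔ fn j (rpR a) < 0 := by
  have h := rp_sign a j
  constructor
  · exact h.2
  · intro h1
    by_contra h2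
    have := h.1 (by simpa using h2)
    exact absurd h1 (not_lt.2 this.le)

theorem rpR_ne (a : T) (j : Fin 4 × Fin 3) : fn j (rpR a) ≠ 0 := by
  cases h : sg a j
  · exact ((rpR_neg a j).1 h).ne
  · exact ((rpR_pos a j).1 h).ne'

theorem rpR_mem (a : T) : rpR a ∈ arr.compl := by
  rw [arr_compl]
  exact rpR_ne a

theorem mul_pos_iff_sg (a b : T) (j : Fin 4 × Fin 3) :
    0 < fn j (rpR a) * fn j (rpR b) ↔ sg a j = sg b j := by
  have ha := rpR_pos a j
  have hb := rpR_pos b j
  have ha' := rpR_neg a j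
  have hb' := rpR_neg b j
  cases h : sg a j <;> cases h' : sg b j
  · simp [mul_pos_of_neg_of_neg (ha'.1 h) (hb'.1 h')]
  · simpa using (mul_neg_of_neg_of_pos (ha'.1 h) (hb.1 h')).le
  · simpa using (mul_neg_of_pos_of_neg (ha.1 h) (hb'.1 h')).le
  · simp [mul_pos (ha.1 h) (hb.1 h')]

theorem mul_neg_iff_sg (a b : T) (j : Fin 4 × Fin 3) :
    fn j (rpR a) * fn j (rpR b) < 0 ↔ sg a j ≠ sg b j := by
  rw [Ne, ← mul_pos_iff_sg]
  have : fn j (rpR a) * fn j (rpR b) ≠ 0 := mul_ne_zero (rpR_ne a j) (rpR_ne b j)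
  constructor
  · intro h
    exact not_lt.2 h.le
  · intro h
    exact lt_of_le_of_ne (not_lt.1 h) this

/-- the chamber of a model chamber -/
def toCh (a : T) : arr.Chamber := ⟨connectedComponentIn arr.compl (rpR a), rpR a, rpR_mem a, rfl⟩

theorem toCh_val (a : T) : (toCh a).1 = {y | ∀ j, 0 < fn j (rpR a) * fn j y} := by
  change connectedComponentIn arr.compl (rpR a) = _
  rw [arr_compl]
  exact component_eq fn (rpR a) (rpR_ne a)

theorem toCh_inj : Function.Injective toCh := by
  intro a b h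
  have h1 : rpR b ∈ (toCh a).1 := by
    rw [h]
    exact mem_connectedComponentIn (rpR_mem b)
  rw [toCh_val] at h1
  exact sg_inj a b fun j => (mul_pos_iff_sg a b j).1 (h1 j)

theorem toCh_surj : Function.Surjective toCh := by
  rintro ⟨C, x, hx, rfl⟩
  have hx' := hx
  rw [arr_compl] at hx'
  obtain ⟨a, ha⟩ := exists_sign x hx'
  refine ⟨a, Subtype.ext ?_⟩
  have h1 : x ∈ (toCh a).1 := by
    rw [toCh_val]
    intro j
    have h2 := ha j
    cases h : sg a j
    · have h3 : ¬ 0 < fn j x := fun h4 => by simp [h2.2 h4] at h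
      exact mul_pos_of_neg_of_neg ((rpR_neg a j).1 h) (lt_of_le_of_ne (not_lt.1 h3) (hx' j))
    · exact mul_pos ((rpR_pos a j).1 h) (h2.1 h)
  exact connectedComponentIn_eq h1

/-- the chambers are the model chambers -/
noncomputable def eqv : T ≃ arr.Chamber := Equiv.ofBijective toCh ⟨toCh_inj, toCh_surj⟩

theorem sep_iff (a b : T) (j : Fin 4 × Fin 3) :
    Separates (LinearMap.ker (fn j)) (toCh a).1 (toCh b).1 ↔ sg a j ≠ sg b j := by
  rw [← mul_neg_iff_sg]
  have := separates_iff fn (rpR a) (rpR b) (rpR_ne a) (rpR_ne b) j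
  rw [← this]
  change Separates _ (connectedComponentIn arr.compl (rpR a)) (connectedComponentIn arr.compl (rpR b)) ↔ _
  rw [arr_compl]
  rfl

theorem ncard_sep (a b : T) :
    {H | H ∈ arr.hyps ∧ Separates H (toCh a).1 (toCh b).1}.ncard = hd a b := by
  have h1 : {H | H ∈ arr.hyps ∧ Separates H (toCh a).1 (toCh b).1} =
      (fun j => LinearMap.ker (fn j)) '' ((Finset.univ.filter fun j => sg a j ≠ sg b j :
        Finset (Fin 4 × Fin 3)) : Set (Fin 4 × Fin 3)) := by
    ext H
    constructor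
    · rintro ⟨h1, h2⟩
      obtain ⟨j, rfl⟩ := (mem_arr _).1 h1
      exact ⟨j, by simpa using (sep_iff a b j).1 h2, rfl⟩
    · rintro ⟨j, hj, rfl⟩
      exact ⟨(mem_arr _).2 ⟨j, rfl⟩, (sep_iff a b j).2 (by simpa using hj)⟩
  rw [h1, Set.ncard_image_of_injective _ (fun j k h => ker_inj j k h), Set.ncard_coe_finset]
  rfl

theorem adj_iff (a b : T) : arr.topeGraph.Adj (toCh a) (toCh b) ↔ hd a b = 1 := by
  change {H | H ∈ arr.hyps ∧ Separates H (toCh a).1 (toCh b).1}.ncard = 1 ↔ _
  rw [ncard_sep]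

theorem hd_zero (a b : T) : hd a b = 0 ↔ a = b := by
  constructor
  · intro h
    apply sg_inj
    intro j
    by_contra hj
    rw [hd, Finset.card_eq_zero] at h
    have : j ∈ (∅ : Finset (Fin 4 × Fin 3)) := by
      rw [← h]
      simpa using hj
    simp at this
  · rintro rfl
    simp [hd]

theorem hd_tri (a b c : T) : hd a c ≤ hd a b + hd b c := by
  unfold hd
  refine le_trans (Finset.card_le_card ?_) (Finset.card_union_le _ _)
  intro j hj
  simp only [Finset.mem_union, Finset.mem_filter, Finset.mem_univ, true_and] at hj ⊢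
  by_contra h
  push Not at h
  exact hj (h.1.trans h.2)

theorem dist_eq (a b : T) : arr.topeGraph.dist (eqv a) (eqv b) = hd a b := by
  have key := dist_eq_of_step arr.topeGraph (fun C D => hd (eqv.symm C) (eqv.symm D))
    (by
      intro C D
      rw [hd_zero]
      exact eqv.symm.injective.eq_iff)
    (by
      intro C D
      obtain ⟨a, rfl⟩ := eqv.surjective C
      obtain ⟨b, rfl⟩ := eqv.surjective D
      rw [eqv.symm_apply_apply, eqv.symm_apply_apply]
      exact adj_iff a b)
    (fun C D E => hd_tri _ _ _)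
    (by
      intro C D h
      obtain ⟨c, h1, h2⟩ := hd_step (eqv.symm C) (eqv.symm D) (fun h' => h (eqv.symm.injective h'))
      exact ⟨eqv c, by rw [eqv.symm_apply_apply]; exact h1, by rw [eqv.symm_apply_apply]; exact h2⟩)
    (eqv a) (eqv b)
  simpa using key

end Pool.Agent.Helper446_MAG
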