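import Mathlib

/-! # The two limits -/

namespace Pool.Agent.Helper446_MAG

open Filter Topology

noncomputable def Mg (z : ℂ) : ℂ :=
  ∑ k ∈ Finset.range 5, (Nat.choose 4 k : ℂ) * 2 * (2 / (1 + z ^ 2)) ^ (4 - k) *
    ((1 + z) ^ 3 / ((1 - z) * (1 + z ^ 2))) ^ k / (1 - (-1) ^ k * z ^ (4 + 2 * k)) *
    ((4 - (k : ℂ)) * ((1 + z) / (1 - z)) + (k : ℂ) * ((1 - z ^ 3) / (1 + z ^ 3)))

/-- the cofactor: `(1 - z) ^ 5 * Mg z = (1 - z) * Gg z` on `0 < z < 1` -/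
noncomputable def Gg (z : ℂ) : ℂ :=
  (1 - z) ^ 2 * (128 / (1 + z ^ 2) ^ 5) +
  (1 - z) ^ 2 * (64 * (1 + z) ^ 3 / (1 + z ^ 2) ^ 4 / (1 + z ^ 6) *
    (3 * (1 + z) + (1 - z) * ((1 - z ^ 3) / (1 + z ^ 3)))) +
  48 * (1 + z) ^ 5 / (1 + z ^ 2) ^ 5 / (1 + z ^ 4) *
    (2 * (1 + z) + 2 * ((1 - z) * ((1 - z ^ 3) / (1 + z ^ 3)))) +
  16 * (1 + z) ^ 9 / (1 + z ^ 2) ^ 4 / (1 + z ^ 10) *
    ((1 + z) + 3 * ((1 - z) * ((1 - z ^ 3) / (1 + z ^ 3)))) +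
  8 * (1 + z) ^ 12 / (1 + z ^ 2) ^ 4 / ((1 + z ^ 3) ^ 2 * (1 + z ^ 6))

theorem Mg_eq (z : ℂ) (h0 : 1 - z ≠ 0) (h1 : 1 + z ≠ 0) (h2 : 1 + z ^ 2 ≠ 0) (h3 : 1 + z ^ 3 ≠ 0)
    (h4 : 1 + z ^ 4 ≠ 0) (h6 : 1 + z ^ 6 ≠ 0) (h10 : 1 + z ^ 10 ≠ 0) (h3' : 1 - z ^ 3 ≠ 0) :
    (1 - z) ^ 5 * Mg z = (1 - z) * Gg z := by
  have e4 : (1 : ℂ) - z ^ 4 = (1 - z) * (1 + z) * (1 + z ^ 2) := by ring
  have e8 : (1 : ℂ) - z ^ 8 = (1 - z) * (1 + z) * (1 + z ^ 2) * (1 + z ^ 4) := by ring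
  have e12 : (1 : ℂ) - z ^ 12 = (1 - z ^ 3) * (1 + z ^ 3) * (1 + z ^ 6) := by ring
  have k0 : (1 - z) ^ 5 * ((1 : ℂ) * 2 * (2 / (1 + z ^ 2)) ^ 4 * 1 / (1 - z ^ 4) *
      (4 * ((1 + z) / (1 - z)))) = (1 - z) * ((1 - z) ^ 2 * (128 / (1 + z ^ 2) ^ 5)) := by
    rw [e4]
    field_simp
    ring
  have k1 : (1 - z) ^ 5 * ((4 : ℂ) * 2 * (2 / (1 + z ^ 2)) ^ 3 *
      ((1 + z) ^ 3 / ((1 - z) * (1 + z ^ 2))) / (1 + z ^ 6) *
      (3 * ((1 + z) / (1 - z)) + (1 - z ^ 3) / (1 + z ^ 3))) =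
      (1 - z) * ((1 - z) ^ 2 * (64 * (1 + z) ^ 3 / (1 + z ^ 2) ^ 4 / (1 + z ^ 6) *
    (3 * (1 + z) + (1 - z) * ((1 - z ^ 3) / (1 + z ^ 3))))) := by
    field_simp
    ring
  have k2 : (1 - z) ^ 5 * ((6 : ℂ) * 2 * (2 / (1 + z ^ 2)) ^ 2 *
      ((1 + z) ^ 3 / ((1 - z) * (1 + z ^ 2))) ^ 2 / (1 - z ^ 8) *
      (2 * ((1 + z) / (1 - z)) + 2 * ((1 - z ^ 3) / (1 + z ^ 3)))) =
      (1 - z) * (48 * (1 + z) ^ 5 / (1 + z ^ 2) ^ 5 / (1 + z ^ 4) *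
    (2 * (1 + z) + 2 * ((1 - z) * ((1 - z ^ 3) / (1 + z ^ 3))))) := by
    rw [e8]
    field_simp
    ring
  have k3 : (1 - z) ^ 5 * ((4 : ℂ) * 2 * (2 / (1 + z ^ 2)) *
      ((1 + z) ^ 3 / ((1 - z) * (1 + z ^ 2))) ^ 3 / (1 + z ^ 10) *
      ((1 + z) / (1 - z) + 3 * ((1 - z ^ 3) / (1 + z ^ 3)))) =
      (1 - z) * (16 * (1 + z) ^ 9 / (1 + z ^ 2) ^ 4 / (1 + z ^ 10) *
    ((1 + z) + 3 * ((1 - z) * ((1 - z ^ 3) / (1 + z ^ 3))))) := by
    field_simp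
    ring
  have k4 : (1 - z) ^ 5 * ((1 : ℂ) * 2 * 1 *
      ((1 + z) ^ 3 / ((1 - z) * (1 + z ^ 2))) ^ 4 / (1 - z ^ 12) *
      (4 * ((1 - z ^ 3) / (1 + z ^ 3)))) =
      (1 - z) * (8 * (1 + z) ^ 12 / (1 + z ^ 2) ^ 4 / ((1 + z ^ 3) ^ 2 * (1 + z ^ 6))) := by
    rw [e12]
    field_simp
    ring
  have hM : Mg z = ((1 : ℂ) * 2 * (2 / (1 + z ^ 2)) ^ 4 * 1 / (1 - z ^ 4) *
      (4 * ((1 + z) / (1 - z)))) + ((4 : ℂ) * 2 * (2 / (1 + z ^ 2)) ^ 3 *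
      ((1 + z) ^ 3 / ((1 - z) * (1 + z ^ 2))) / (1 + z ^ 6) *
      (3 * ((1 + z) / (1 - z)) + (1 - z ^ 3) / (1 + z ^ 3))) + ((6 : ℂ) * 2 * (2 / (1 + z ^ 2)) ^ 2 *
      ((1 + z) ^ 3 / ((1 - z) * (1 + z ^ 2))) ^ 2 / (1 - z ^ 8) *
      (2 * ((1 + z) / (1 - z)) + 2 * ((1 - z ^ 3) / (1 + z ^ 3)))) + ((4 : ℂ) * 2 * (2 / (1 + z ^ 2)) *
      ((1 + z) ^ 3 / ((1 - z) * (1 + z ^ 2))) ^ 3 / (1 + z ^ 10) *
      ((1 + z) / (1 - z) + 3 * ((1 - z ^ 3) / (1 + z ^ 3)))) + ((1 : ℂ) * 2 * 1 *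
      ((1 + z) ^ 3 / ((1 - z) * (1 + z ^ 2))) ^ 4 / (1 - z ^ 12) *
      (4 * ((1 - z ^ 3) / (1 + z ^ 3)))) := by
    unfold Mg
    have c1 : Nat.choose 4 1 = 4 := by decide
    have c2 : Nat.choose 4 2 = 6 := by decide
    have c3 : Nat.choose 4 3 = 4 := by decide
    simp only [Finset.sum_range_succ, Finset.sum_range_zero, zero_add, Nat.choose_zero_right,
      c1, c2, c3, Nat.choose_self]
    norm_num
  rw [hM, mul_add, mul_add, mul_add, mul_add, k0, k1, k2, k3, k4]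
  unfold Gg
  ring

theorem Mg_real : Tendsto (fun r : ℝ => (1 - (r : ℂ)) ^ 5 * Mg (r : ℂ)) (𝓝[<] 1) (𝓝 0) := by
  have hcont : ContinuousAt (fun r : ℝ => (1 - (r : ℂ)) * Gg (r : ℂ)) 1 := by
    unfold Gg
    have a2 : (1 : ℂ) + ((1 : ℝ) : ℂ) ^ 2 ≠ 0 := by norm_num
    have a3 : (1 : ℂ) + ((1 : ℝ) : ℂ) ^ 3 ≠ 0 := by norm_num
    have a4 : (1 : ℂ) + ((1 : ℝ) : ℂ) ^ 4 ≠ 0 := by norm_num
    have a6 : (1 : ℂ) + ((1 : ℝ) : ℂ) ^ 6 ≠ 0 := by norm_num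
    have a10 : (1 : ℂ) + ((1 : ℝ) : ℂ) ^ 10 ≠ 0 := by norm_num
    fun_prop (disch := first | assumption | (norm_num))
  have h0 : Tendsto (fun r : ℝ => (1 - (r : ℂ)) * Gg (r : ℂ)) (𝓝[<] 1) (𝓝 0) := by
    have := hcont.tendsto.mono_left (nhdsWithin_le_nhds (s := Set.Iio (1 : ℝ)))
    simpa using this
  refine h0.congr' ?_
  have hI : Set.Ioo (0 : ℝ) 1 ∈ 𝓝[<] (1 : ℝ) := Ioo_mem_nhdsLT one_pos
  filter_upwards [hI] with r hr
  have hr0 := hr.1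
  have hr1 := hr.2
  symm
  apply Mg_eq
  · have : (1 : ℝ) - r ≠ 0 := by linarith
    exact_mod_cast this
  · have : (1 : ℝ) + r ≠ 0 := by positivity
    exact_mod_cast this
  · have : (1 : ℝ) + r ^ 2 ≠ 0 := by positivity
    exact_mod_cast this
  · have : (1 : ℝ) + r ^ 3 ≠ 0 := by positivity
    exact_mod_cast this
  · have : (1 : ℝ) + r ^ 4 ≠ 0 := by positivity
    exact_mod_cast this
  · have : (1 : ℝ) + r ^ 6 ≠ 0 := by positivity
    exact_mod_cast this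
  · have : (1 : ℝ) + r ^ 10 ≠ 0 := by positivity
    exact_mod_cast this
  · have h : r ^ 3 < 1 := pow_lt_one₀ hr0.le hr1 (by norm_num)
    have : (1 : ℝ) - r ^ 3 ≠ 0 := by linarith
    exact_mod_cast this


noncomputable def MgT (k : ℕ) (w : ℂ) : ℂ :=
  (Nat.choose 4 k : ℂ) * 2 * (2 / (1 + w)) ^ (4 - k) *
    ((1 + Complex.I * w) ^ 3 / ((1 - Complex.I * w) * (1 + w))) ^ k /
    (∑ j ∈ Finset.range (4 + 2 * k), w ^ j) *
    ((4 - (k : ℂ)) * ((1 + Complex.I * w) / (1 - Complex.I * w)) +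
      (k : ℂ) * ((1 - (Complex.I * w) ^ 3) / (1 + (Complex.I * w) ^ 3)))

theorem MgT_alg (k : ℕ) (hk : k ≤ 4) (u c D D' N E F F' L : ℂ) (hu : u ≠ 0) (hD : D = u * D')
    (hF : F = u * F') :
    u ^ 5 * (c * 2 * (2 / D) ^ (4 - k) * (N / (E * D)) ^ k / F * L) =
      c * 2 * (2 / D') ^ (4 - k) * (N / (E * D')) ^ k / F' * L := by
  have h5 : u ^ 5 = u ^ (4 - k) * u ^ k * u := by
    rw [← pow_add, ← pow_succ]
    congr 1
    omega
  have e1 : u ^ (4 - k) * (2 / D) ^ (4 - k) = (2 / D') ^ (4 - k) := by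
    rw [← mul_pow, hD]
    congr 1
    rw [← mul_div_assoc, mul_div_mul_left _ _ hu]
  have e2 : u ^ k * (N / (E * D)) ^ k = (N / (E * D')) ^ k := by
    rw [← mul_pow, hD]
    congr 1
    rw [← mul_div_assoc, show E * (u * D') = u * (E * D') by ring, mul_div_mul_left _ _ hu]
  have e3 : u / F = 1 / F' := by
    rw [hF]
    conv_lhs => rw [show u = u * 1 by ring]
    rw [show u * 1 * F' = u * F' by ring, mul_div_mul_left _ _ hu]
  calc u ^ 5 * (c * 2 * (2 / D) ^ (4 - k) * (N / (E * D)) ^ k / F * L)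
      = c * 2 * (u ^ (4 - k) * (2 / D) ^ (4 - k)) * (u ^ k * (N / (E * D)) ^ k) * (u / F) * L := by
        rw [h5]
        ring
    _ = _ := by
        rw [e1, e2, e3]
        ring

theorem Mg_term (k : ℕ) (hk : k ≤ 4) (r : ℂ) (hr : 1 - r ≠ 0) :
    (1 - r) ^ 5 * ((Nat.choose 4 k : ℂ) * 2 * (2 / (1 + (Complex.I * r) ^ 2)) ^ (4 - k) *
    ((1 + Complex.I * r) ^ 3 / ((1 - Complex.I * r) * (1 + (Complex.I * r) ^ 2))) ^ k /
      (1 - (-1) ^ k * (Complex.I * r) ^ (4 + 2 * k)) *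
    ((4 - (k : ℂ)) * ((1 + Complex.I * r) / (1 - Complex.I * r)) +
      (k : ℂ) * ((1 - (Complex.I * r) ^ 3) / (1 + (Complex.I * r) ^ 3)))) = MgT k r := by
  unfold MgT
  refine MgT_alg k hk (1 - r) _ _ _ _ _ _ _ _ hr ?_ ?_
  · rw [mul_pow, Complex.I_sq]
    ring
  · rw [mul_neg_geom_sum]
    congr 1
    have h1 : (Complex.I * r) ^ (4 + 2 * k) = (-1) ^ (2 + k) * r ^ (4 + 2 * k) := by
      rw [show 4 + 2 * k = 2 * (2 + k) by ring, pow_mul, mul_pow, Complex.I_sq, mul_pow, ← pow_mul]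
    rw [h1, ← mul_assoc, ← pow_add, show k + (2 + k) = 2 * (1 + k) by ring, pow_mul]
    norm_num

theorem one_sub_I_ne : (1 : ℂ) - Complex.I ≠ 0 := by
  intro h
  have := congrArg Complex.re h
  simp at this

theorem MgT_cont (k : ℕ) : ContinuousAt (MgT k) 1 := by
  have hw : ContinuousAt (fun w : ℂ => w) 1 := continuousAt_id
  have hI : ContinuousAt (fun w : ℂ => Complex.I * w) 1 := continuousAt_const.mul hw
  have h1 : (1 : ℂ) - Complex.I * 1 ≠ 0 := by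
    rw [mul_one]
    exact one_sub_I_ne
  have h3 : (1 : ℂ) + (Complex.I * 1) ^ 3 ≠ 0 := by
    rw [mul_one, Complex.I_pow_three, ← sub_eq_add_neg]
    exact one_sub_I_ne
  have h2 : (1 : ℂ) + 1 ≠ 0 := by norm_num
  have hs : (∑ j ∈ Finset.range (4 + 2 * k), (1 : ℂ) ^ j) ≠ 0 := by
    simp only [one_pow, Finset.sum_const, Finset.card_range, nsmul_eq_mul, mul_one]
    exact_mod_cast (by omega : 4 + 2 * k ≠ 0)
  have hsum : ContinuousAt (fun w : ℂ => ∑ j ∈ Finset.range (4 + 2 * k), w ^ j) 1 :=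
    (continuous_finset_sum _ (fun j _ => continuous_pow j)).continuousAt
  unfold MgT
  refine ContinuousAt.mul (ContinuousAt.div (ContinuousAt.mul (ContinuousAt.mul
    continuousAt_const (ContinuousAt.pow (continuousAt_const.div (continuousAt_const.add hw) h2) _))
    (ContinuousAt.pow (ContinuousAt.div ((continuousAt_const.add hI).pow 3)
      ((continuousAt_const.sub hI).mul (continuousAt_const.add hw)) (mul_ne_zero h1 h2)) _))
    hsum hs) (ContinuousAt.add (continuousAt_const.mul ((continuousAt_const.add hI).div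
      (continuousAt_const.sub hI) h1)) (continuousAt_const.mul
      ((continuousAt_const.sub (hI.pow 3)).div (continuousAt_const.add (hI.pow 3)) h3)))

theorem MgT_one : ∑ k ∈ Finset.range 5, MgT k 1 = 2 / 15 * Complex.I := by
  have h1 := one_sub_I_ne
  have e1 : (1 + Complex.I) ^ 3 / ((1 - Complex.I) * (1 + 1)) = -1 := by
    rw [div_eq_iff (mul_ne_zero h1 (by norm_num))]
    linear_combination (3 + Complex.I) * Complex.I_sq
  have e2 : (1 + Complex.I) / (1 - Complex.I) = Complex.I := by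
    rw [div_eq_iff h1]
    linear_combination Complex.I_sq
  have e3 : (1 - Complex.I ^ 3) / (1 + Complex.I ^ 3) = Complex.I := by
    rw [Complex.I_pow_three, sub_neg_eq_add, ← sub_eq_add_neg]
    exact e2
  have hT : ∀ k, MgT k 1 = (Nat.choose 4 k : ℂ) * 2 * (-1) ^ k / ((4 + 2 * k : ℕ) : ℂ) *
      (4 * Complex.I) := by
    intro k
    unfold MgT
    rw [mul_one, e1, e2, e3]
    have : (2 : ℂ) / (1 + 1) = 1 := by norm_num
    rw [this, one_pow]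
    simp only [one_pow, Finset.sum_const, Finset.card_range, nsmul_eq_mul, mul_one]
    ring
  simp_rw [hT]
  simp only [Finset.sum_range_succ, Finset.sum_range_zero]
  norm_num [Nat.choose]
  ring

theorem Mg_imag : Tendsto (fun r : ℝ => (1 - (r : ℂ)) ^ 5 * Mg (Complex.I * (r : ℂ))) (𝓝[<] 1)
    (𝓝 (2 / 15 * Complex.I)) := by
  have hr : Tendsto (fun r : ℝ => (r : ℂ)) (𝓝[<] 1) (𝓝 1) :=
    (Complex.continuous_ofReal.tendsto' 1 1 (by simp)).mono_left nhdsWithin_le_nhds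
  have h1 : Tendsto (fun r : ℝ => ∑ k ∈ Finset.range 5, MgT k (r : ℂ)) (𝓝[<] 1)
      (𝓝 (∑ k ∈ Finset.range 5, MgT k 1)) :=
    tendsto_finset_sum _ (fun k _ => (MgT_cont k).tendsto.comp hr)
  rw [MgT_one] at h1
  refine h1.congr' ?_
  filter_upwards [self_mem_nhdsWithin] with r hr1
  have hne : (1 : ℂ) - (r : ℂ) ≠ 0 := by
    have : (1 : ℝ) - r ≠ 0 := sub_ne_zero.2 (ne_of_gt hr1)
    intro h
    apply this
    exact_mod_cast h
  unfold Mg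
  rw [Finset.mul_sum]
  refine Finset.sum_congr rfl (fun k hk => ?_)
  have hk4 : k ≤ 4 := by
    have := Finset.mem_range.1 hk
    omega
  exact (Mg_term k hk4 _ hne).symm


theorem exists_neg_of_limits (m : ℕ → ℤ) (M : ℂ → ℂ) (c : ℂ) (hc : c ≠ 0)
    (hM : ∀ z : ℂ, ‖z‖ < 1 → HasSum (fun n => (m n : ℂ) * z ^ n) (M z))
    (h1 : Tendsto (fun r : ℝ => (1 - (r : ℂ)) ^ 5 * M (r : ℂ)) (𝓝[<] 1) (𝓝 0))
    (h2 : Tendsto (fun r : ℝ => (1 - (r : ℂ)) ^ 5 * M (Complex.I * (r : ℂ))) (𝓝[<] 1) (𝓝 c)) :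
    ∀ l₀ : ℕ, ∃ l ≥ l₀, m l < 0 := by
  intro l₀
  by_contra hcon
  push Not at hcon
  set B : ℝ := ∑ n ∈ Finset.range l₀, |(m n : ℝ)| with hB
  have key : ∀ r : ℝ, 0 < r → r < 1 → ‖M (Complex.I * (r : ℂ))‖ ≤ ‖M (r : ℂ)‖ + 2 * B := by
    intro r hr0 hr1
    have hz : ‖(r : ℂ)‖ < 1 := by
      rw [Complex.norm_real, Real.norm_of_nonneg hr0.le]
      exact hr1
    have hz' : ‖Complex.I * (r : ℂ)‖ < 1 := by
      rw [norm_mul, Complex.norm_I, one_mul]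
      exact hz
    have h := hM _ hz
    have h' := hM _ hz'
    have hn : ∀ n, ‖(m n : ℂ) * (r : ℂ) ^ n‖ = |(m n : ℝ)| * r ^ n := by
      intro n
      rw [norm_mul, norm_pow, Complex.norm_real, Real.norm_of_nonneg hr0.le, Complex.norm_intCast]
    have hn' : ∀ n, ‖(m n : ℂ) * (Complex.I * (r : ℂ)) ^ n‖ = |(m n : ℝ)| * r ^ n := by
      intro n
      rw [norm_mul, norm_pow, norm_mul, Complex.norm_I, one_mul, Complex.norm_real,
        Real.norm_of_nonneg hr0.le, Complex.norm_intCast]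
    have hs : Summable fun n => |(m n : ℝ)| * r ^ n := by
      have := h.summable.norm
      simp_rw [hn] at this
      exact this
    have hre : HasSum (fun n => (m n : ℝ) * r ^ n) (M (r : ℂ)).re := by
      have h3 := Complex.hasSum_re h
      have e : (fun n => ((m n : ℂ) * (r : ℂ) ^ n).re) = fun n => (m n : ℝ) * r ^ n := by
        funext n
        have : (m n : ℂ) * (r : ℂ) ^ n = (((m n : ℝ) * r ^ n : ℝ) : ℂ) := by push_cast; rfl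
        rw [this, Complex.ofReal_re]
      rw [e] at h3
      exact h3
    have h1' : ‖M (Complex.I * (r : ℂ))‖ ≤ ∑' n, |(m n : ℝ)| * r ^ n := by
      rw [← h'.tsum_eq]
      have hs' : Summable fun n => ‖(m n : ℂ) * (Complex.I * (r : ℂ)) ^ n‖ := by
        simp_rw [hn']
        exact hs
      refine (norm_tsum_le_tsum_norm hs').trans (le_of_eq ?_)
      simp_rw [hn']
    have h2' : ∑' n, |(m n : ℝ)| * r ^ n =
        (∑' n, (m n : ℝ) * r ^ n) + ∑' n, (|(m n : ℝ)| - (m n : ℝ)) * r ^ n := by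
      rw [← (hre.summable).tsum_add]
      · congr 1
        funext n
        ring
      · have := hs.sub hre.summable
        refine this.congr fun n => ?_
        ring
    have h3' : ∑' n, (|(m n : ℝ)| - (m n : ℝ)) * r ^ n ≤ 2 * B := by
      rw [tsum_eq_sum (s := Finset.range l₀)]
      · rw [hB, Finset.mul_sum]
        apply Finset.sum_le_sum
        intro n _
        have q1 : |(m n : ℝ)| - (m n : ℝ) ≤ 2 * |(m n : ℝ)| := by
          have := neg_abs_le (m n : ℝ)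
          linarith
        have q2 : r ^ n ≤ 1 := pow_le_one₀ hr0.le hr1.le
        have q3 : 0 ≤ |(m n : ℝ)| - (m n : ℝ) := by
          have := le_abs_self (m n : ℝ)
          linarith
        calc (|(m n : ℝ)| - (m n : ℝ)) * r ^ n ≤ (|(m n : ℝ)| - (m n : ℝ)) * 1 :=
              mul_le_mul_of_nonneg_left q2 q3
          _ ≤ 2 * |(m n : ℝ)| := by linarith
      · intro n hn1
        rw [Finset.mem_range, not_lt] at hn1
        have h0 : (0 : ℝ) ≤ (m n : ℝ) := by exact_mod_cast hcon n hn1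
        rw [abs_of_nonneg h0, sub_self, zero_mul]
    have h4' : ∑' n, (m n : ℝ) * r ^ n ≤ ‖M (r : ℂ)‖ := by
      rw [hre.tsum_eq]
      exact Complex.re_le_norm _
    linarith
  have hlim : Tendsto (fun r : ℝ => ‖(1 - (r : ℂ)) ^ 5 * M (r : ℂ)‖ +
      ‖(1 - (r : ℂ)) ^ 5‖ * (2 * B)) (𝓝[<] 1) (𝓝 0) := by
    have t1 := h1.norm
    rw [norm_zero] at t1
    have t2 : Tendsto (fun r : ℝ => ‖(1 - (r : ℂ)) ^ 5‖ * (2 * B)) (𝓝[<] 1) (𝓝 0) := by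
      have hc2 : Continuous fun r : ℝ => ‖(1 - (r : ℂ)) ^ 5‖ * (2 * B) := by fun_prop
      have := (hc2.tendsto 1).mono_left (nhdsWithin_le_nhds (s := Set.Iio (1 : ℝ)))
      simpa using this
    simpa using t1.add t2
  have hle : ‖c‖ ≤ 0 := by
    refine le_of_tendsto_of_tendsto h2.norm hlim ?_
    have hmem : Set.Ioo (0 : ℝ) 1 ∈ 𝓝[<] (1 : ℝ) := Ioo_mem_nhdsLT one_pos
    filter_upwards [hmem] with r hr
    rw [norm_mul, norm_mul, ← mul_add]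
    exact mul_le_mul_of_nonneg_left (key r hr.1 hr.2) (norm_nonneg _)
  exact hc (norm_le_zero_iff.mp hle)


end Pool.Agent.Helper446_MAG
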