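import Mathlib

/-! # The combinatorial model of the 648 chambers -/

namespace Pool.Agent.Helper446_MAG

/-- the model of the chambers: a sector of the plane and four positions -/
abbrev T : Type := Fin 8 × (Fin 4 → Fin 3)

/-- sign of `l_i` on the sector `D` (`true` = positive) -/
def ls (D : Fin 8) (i : Fin 4) : Bool :=
  (![![true, true, true, true],
     ![true, false, true, true],
     ![true, false, false, true],
     ![true, false, false, false],
     ![false, false, false, false],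
     ![false, true, false, false],
     ![false, true, true, false],
     ![false, true, true, true]] : Fin 8 → Fin 4 → Bool) D i

/-- the twelve signs of a model chamber: `(i,0)` is `l_i`, `(i,1)` is `z_i`, `(i,2)` is `z_i - l_i` -/
def sg (a : T) (j : Fin 4 × Fin 3) : Bool :=
  (![ls a.1 j.1,
     (![false, ls a.1 j.1, true] : Fin 3 → Bool) (a.2 j.1),
     (![false, !(ls a.1 j.1), true] : Fin 3 → Bool) (a.2 j.1)] : Fin 3 → Bool) j.2

/-- Hamming distance of the sign vectors -/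
def hd (a b : T) : ℕ := (Finset.univ.filter fun j => sg a j ≠ sg b j).card

/-- local distance -/
def kap (a b : Fin 3) (e : Bool) : ℕ :=
  bif e then (![![0, 1, 2], ![1, 2, 1], ![2, 1, 0]] : Fin 3 → Fin 3 → ℕ) a b
  else (![![0, 1, 2], ![1, 0, 1], ![2, 1, 0]] : Fin 3 → Fin 3 → ℕ) a b

/-- integer coefficient vectors of the functionals; coordinates are `s, t, z_0, z_1, z_2, z_3` -/
def cf (j : Fin 4 × Fin 3) : Fin 6 → ℤ :=
  (![![![0, 1, 0, 0, 0, 0], ![0, 0, 1, 0, 0, 0], ![0, -1, 1, 0, 0, 0]],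
     ![![1, -1, 0, 0, 0, 0], ![0, 0, 0, 1, 0, 0], ![-1, 1, 0, 1, 0, 0]],
     ![![1, 0, 0, 0, 0, 0], ![0, 0, 0, 0, 1, 0], ![-1, 0, 0, 0, 1, 0]],
     ![![1, 1, 0, 0, 0, 0], ![0, 0, 0, 0, 0, 1], ![-1, -1, 0, 0, 0, 1]]] :
      Fin 4 → Fin 3 → Fin 6 → ℤ) j.1 j.2

/-- the functionals -/
noncomputable def fn (j : Fin 4 × Fin 3) : (Fin 6 → ℝ) →ₗ[ℝ] ℝ :=
  ∑ i : Fin 6, ((cf j i : ℤ) : ℝ) • LinearMap.proj i

/-- twice the representative points, in integers -/
def rp (a : T) : Fin 6 → ℤ :=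
  let p : Fin 2 → ℤ := (![![4, 2], ![2, 4], ![-2, 4], ![-4, 2], ![-4, -2], ![-2, -4], ![2, -4],
    ![4, -2]] : Fin 8 → Fin 2 → ℤ) a.1
  ![p 0, p 1,
    (![-20, p 1 / 2, 20] : Fin 3 → ℤ) (a.2 0),
    (![-20, (p 0 - p 1) / 2, 20] : Fin 3 → ℤ) (a.2 1),
    (![-20, p 0 / 2, 20] : Fin 3 → ℤ) (a.2 2),
    (![-20, (p 0 + p 1) / 2, 20] : Fin 3 → ℤ) (a.2 3)]

end Pool.Agent.Helper446_MAG
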