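import Pool.Agent.Helper446_MAG.Weight
import Pool.Agent.Helper446_MAG.Eval
import Pool.Agent.Helper446_MAG.Limits
import Pool.Agent.Helper446_MAG.Count
import Pool.Agent.Helper446_MAG.ModelDist

/-! # The generating function of the magnitude Euler characteristics -/

namespace Pool.Agent.Helper446_MAG

open PowerSeries

/-- inverses in the ring of power series -/
noncomputable def invX : Inv (PowerSeries ℂ) X where
  s := (1 + X ^ 2)⁻¹
  y := (1 + X)⁻¹
  y3 := (1 - X ^ 3)⁻¹
  t k := (1 - (-1) ^ k * X ^ (4 + 2 * k))⁻¹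
  hs := PowerSeries.mul_inv_cancel _ (by simp)
  hy := PowerSeries.mul_inv_cancel _ (by simp)
  hy3 := PowerSeries.mul_inv_cancel _ (by simp)
  ht k := PowerSeries.mul_inv_cancel _ (by simp)

/-- values of these inverses at a point of the unit disc -/
noncomputable def invC (z : ℂ) (hz : ‖z‖ < 1) : Inv ℂ z where
  s := (1 + z ^ 2)⁻¹
  y := (1 + z)⁻¹
  y3 := (1 - z ^ 3)⁻¹
  t k := (1 - (-1) ^ k * z ^ (4 + 2 * k))⁻¹
  hs := by
    apply mul_inv_cancel₀
    intro h
    have h1 : z ^ 2 = -1 := by linear_combination h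
    have h2 : ‖z‖ ^ 2 = 1 := by rw [← norm_pow, h1]; simp
    nlinarith [norm_nonneg z]
  hy := by
    apply mul_inv_cancel₀
    intro h
    have h1 : z = -1 := by linear_combination h
    rw [h1] at hz
    simp at hz
  hy3 := by
    apply mul_inv_cancel₀
    intro h
    have h1 : z ^ 3 = 1 := by linear_combination -h
    have h2 : ‖z‖ ^ 3 = 1 := by rw [← norm_pow, h1]; simp
    have h3 : ‖z‖ ^ 3 < 1 := pow_lt_one₀ (norm_nonneg z) hz (by norm_num)
    linarith
  ht k := by
    apply mul_inv_cancel₀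
    intro h
    have h1 : (-1) ^ k * z ^ (4 + 2 * k) = 1 := by linear_combination -h
    have h2 : ‖z‖ ^ (4 + 2 * k) = 1 := by
      have := congrArg norm h1
      simpa using this
    have h3 : ‖z‖ ^ (4 + 2 * k) < 1 := pow_lt_one₀ (norm_nonneg z) hz (by omega)
    linarith

theorem ev_sum {z : ℂ} {ι : Type*} (s : Finset ι) (f : ι → PowerSeries ℂ) (v : ι → ℂ)
    (h : ∀ i ∈ s, Ev z (f i) (v i)) : Ev z (∑ i ∈ s, f i) (∑ i ∈ s, v i) := by
  classical
  induction s using Finset.induction_on with
  | empty =>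
    simp only [Finset.sum_empty]
    have := ev_const z 0
    simpa using this
  | insert a s ha ih =>
    rw [Finset.sum_insert ha, Finset.sum_insert ha]
    exact ev_add (h a (Finset.mem_insert_self _ _)) (ih fun i hi => h i (Finset.mem_insert_of_mem hi))

theorem ev_prod {z : ℂ} {ι : Type*} (s : Finset ι) (f : ι → PowerSeries ℂ) (v : ι → ℂ)
    (h : ∀ i ∈ s, Ev z (f i) (v i)) : Ev z (∏ i ∈ s, f i) (∏ i ∈ s, v i) := by
  classical
  induction s using Finset.induction_on with
  | empty =>
    simp only [Finset.prod_empty]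
    have := ev_const z 1
    simpa using this
  | insert a s ha ih =>
    rw [Finset.prod_insert ha, Finset.prod_insert ha]
    exact ev_mul (h a (Finset.mem_insert_self _ _)) (ih fun i hi => h i (Finset.mem_insert_of_mem hi))

theorem ev_num (z : ℂ) (c : ℂ) {f : PowerSeries ℂ} (hf : f = C c) : Ev z f c := by
  rw [hf]
  exact ev_const z c

section

variable (z : ℂ) (hz : ‖z‖ < 1)

theorem ev_s : Ev z invX.s (invC z hz).s := by
  have h := ev_inv (z := z) (c := -1) (j := 2) (g := invX.s) (by norm_num) hz (by simp)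
    (by have := invX.hs; simpa using this)
  convert h using 1
  simp [invC]

theorem ev_y : Ev z invX.y (invC z hz).y := by
  have h := ev_inv (z := z) (c := -1) (j := 1) (g := invX.y) (by norm_num) hz (by simp)
    (by have := invX.hy; simpa using this)
  convert h using 1
  simp [invC]

theorem ev_y3 : Ev z invX.y3 (invC z hz).y3 := by
  have h := ev_inv (z := z) (c := 1) (j := 3) (g := invX.y3) (by norm_num) hz (by simp)
    (by have := invX.hy3; simpa using this)
  convert h using 1
  simp [invC]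

theorem ev_t (k : ℕ) : Ev z (invX.t k) ((invC z hz).t k) := by
  have h := ev_inv (z := z) (c := (-1) ^ k) (j := 4 + 2 * k) (g := invX.t k) (by omega) hz (by simp)
    (by have := invX.ht k; simpa using this)
  exact h

theorem ev_total : Ev z (∑ a : T, invX.w a) (∑ A : Fin 4 → Bool,
    (invC z hz).t (cnt A) * (4 * ∑ i, (invC z hz).yy (A i) - 8) * ∏ i, (invC z hz).S (A i)) := by
  rw [Inv.total]
  refine ev_sum _ _ _ fun A _ => ?_
  refine ev_mul (ev_mul (ev_t z hz _) ?_) ?_
  · have h1 : Ev z (∑ i, invX.yy (A i)) (∑ i, (invC z hz).yy (A i)) := by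
      refine ev_sum _ _ _ fun i _ => ?_
      cases A i
      · exact ev_y z hz
      · exact ev_y3 z hz
    have h2 := ev_add (ev_mul (ev_num z 4 (f := 4) (map_ofNat (C (R := ℂ)) 4).symm) h1) (ev_num z (-8) (f := -8) (by rw [map_neg, map_ofNat]))
    simpa [sub_eq_add_neg] using h2
  · refine ev_prod _ _ _ fun i _ => ?_
    cases A i
    · exact ev_mul (ev_num z 2 (f := 2) (map_ofNat (C (R := ℂ)) 2).symm) (ev_s z hz)
    · have h1 : Ev z (1 - X) (1 - z) := by
        have h2 := ev_add (ev_num z 1 (f := 1) (by simp))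
          (ev_mul (ev_num z (-1) (f := -1) (by simp)) (ev_X z))
        simpa [sub_eq_add_neg] using h2
      have h3 : Ev z ((1 - X) ^ 3) ((1 - z) ^ 3) := by
        have := ev_mul h1 (ev_mul h1 h1)
        have e1 : (1 - X : PowerSeries ℂ) ^ 3 = (1 - X) * ((1 - X) * (1 - X)) := by ring
        have e2 : (1 - z) ^ 3 = (1 - z) * ((1 - z) * (1 - z)) := by ring
        rw [e1, e2]
        exact this
      exact ev_mul (ev_mul h3 (ev_y z hz)) (ev_s z hz)

end

theorem cnt_le (A : Fin 4 → Bool) : cnt A ≤ 4 := by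
  have := Finset.card_filter_le (Finset.univ : Finset (Fin 4)) (fun i => A i = true)
  simpa [cnt] using this

theorem sum_cnt (F : ℕ → ℂ) : ∑ A : Fin 4 → Bool, F (cnt A) =
    ∑ k ∈ Finset.range 5, (Nat.choose 4 k : ℂ) * F k := by
  rw [← Finset.sum_fiberwise_of_maps_to (s := (Finset.univ : Finset (Fin 4 → Bool)))
    (t := Finset.range 5) (g := cnt) (fun A _ => by
      rw [Finset.mem_range]
      exact Nat.lt_succ_of_le (cnt_le A))]
  refine Finset.sum_congr rfl fun k hk => ?_
  have h1 : ∀ A ∈ (Finset.univ.filter fun A : Fin 4 → Bool => cnt A = k), F (cnt A) = F k := by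
    intro A hA
    rw [(Finset.mem_filter.1 hA).2]
  rw [Finset.sum_congr rfl h1, Finset.sum_const, nsmul_eq_mul]
  congr 2
  rw [Finset.mem_range] at hk
  interval_cases k <;> decide +kernel

theorem sum_bool (A : Fin 4 → Bool) (a b : ℂ) : ∑ i, (bif A i then b else a) =
    (4 - (cnt A : ℂ)) * a + (cnt A : ℂ) * b := by
  have h : ∀ i, (bif A i then b else a) = if A i = true then b else a := by
    intro i
    cases A i <;> simp
  simp only [h]
  rw [Finset.sum_ite]
  simp only [Finset.sum_const, nsmul_eq_mul]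
  have h2 : (Finset.univ.filter fun i => ¬ A i = true).card + cnt A = 4 := by
    have := Finset.card_filter_add_card_filter_not (s := (Finset.univ : Finset (Fin 4)))
      (fun i => A i = true)
    simp only [cnt, Finset.card_univ, Fintype.card_fin] at this ⊢
    omega
  have h3 : (((Finset.univ.filter fun i => ¬ A i = true).card : ℕ) : ℂ) = 4 - (cnt A : ℂ) := by
    rw [eq_sub_iff_add_eq]
    exact_mod_cast h2
  rw [h3]
  simp only [cnt]
  ring

theorem prod_bool (A : Fin 4 → Bool) (a b : ℂ) : ∏ i, (bif A i then b else a) =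
    a ^ (4 - cnt A) * b ^ cnt A := by
  have h : ∀ i, (bif A i then b else a) = if A i = true then b else a := by
    intro i
    cases A i <;> simp
  simp only [h]
  rw [Finset.prod_ite]
  simp only [Finset.prod_const]
  have h2 : (Finset.univ.filter fun i => ¬ A i = true).card = 4 - cnt A := by
    have := Finset.card_filter_add_card_filter_not (s := (Finset.univ : Finset (Fin 4)))
      (fun i => A i = true)
    simp only [cnt, Finset.card_univ, Fintype.card_fin] at this ⊢
    omega
  rw [h2]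
  simp only [cnt]
  ring

theorem value_eq (z : ℂ) (hz : ‖z‖ < 1) (hz' : ‖-z‖ < 1) : (∑ A : Fin 4 → Bool,
    (invC (-z) hz').t (cnt A) * (4 * ∑ i, (invC (-z) hz').yy (A i) - 8) *
      ∏ i, (invC (-z) hz').S (A i)) = Mg z := by
  have hs := (invC z hz).hs
  have hy := (invC (-z) hz').hy
  have hy3 := (invC (-z) hz').hy3
  have e1 : ∀ A : Fin 4 → Bool, (invC (-z) hz').t (cnt A) * (4 * ∑ i, (invC (-z) hz').yy (A i) - 8) *
      ∏ i, (invC (-z) hz').S (A i) =
      (fun k : ℕ => (invC (-z) hz').t k * (4 * ((4 - (k : ℂ)) * (invC (-z) hz').y +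
        (k : ℂ) * (invC (-z) hz').y3) - 8) * ((2 * (invC (-z) hz').s) ^ (4 - k) *
        ((1 - -z) ^ 3 * (invC (-z) hz').y * (invC (-z) hz').s) ^ k)) (cnt A) := by
    intro A
    simp only [Inv.yy, Inv.S]
    rw [sum_bool, prod_bool]
  simp only [e1]
  rw [sum_cnt (fun k : ℕ => (invC (-z) hz').t k * (4 * ((4 - (k : ℂ)) * (invC (-z) hz').y +
        (k : ℂ) * (invC (-z) hz').y3) - 8) * ((2 * (invC (-z) hz').s) ^ (4 - k) *
        ((1 - -z) ^ 3 * (invC (-z) hz').y * (invC (-z) hz').s) ^ k))]
  unfold Mg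
  refine Finset.sum_congr rfl fun k _ => ?_
  have f1 : (invC (-z) hz').y = (1 - z)⁻¹ := by simp [invC, sub_eq_add_neg]
  have f2 : (invC (-z) hz').y3 = (1 + z ^ 3)⁻¹ := by
    simp only [invC]
    congr 1
    ring
  have f3 : (invC (-z) hz').s = (1 + z ^ 2)⁻¹ := by
    simp only [invC]
    congr 1
    ring
  have f4 : (invC (-z) hz').t k = (1 - (-1) ^ k * z ^ (4 + 2 * k))⁻¹ := by
    simp only [invC]
    rw [show (-z) ^ (4 + 2 * k) = z ^ (4 + 2 * k) from Even.neg_pow ⟨2 + k, by ring⟩ z]
  have g1 : (1 - z) ≠ 0 := by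
    intro h
    have := hy
    rw [f1, h] at this
    simp at this
  have g2 : (1 + z ^ 3) ≠ 0 := by
    intro h
    have := hy3
    rw [f2, h] at this
    simp at this
  rw [f1, f2, f3, f4]
  have g3 : 4 * ((4 - (k : ℂ)) * (1 - z)⁻¹ + (k : ℂ) * (1 + z ^ 3)⁻¹) - 8 =
      2 * ((4 - (k : ℂ)) * ((1 + z) / (1 - z)) + (k : ℂ) * ((1 - z ^ 3) / (1 + z ^ 3))) := by
    field_simp
    ring
  rw [g3]
  simp only [div_eq_mul_inv, mul_inv, sub_neg_eq_add]
  ring

end Pool.Agent.Helper446_MAG
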