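import Pool.Agent.Helper446_MAG.Model

/-! # The weighting of the model tope graph -/

namespace Pool.Agent.Helper446_MAG

/-- the first wall of a sector -/
def wa (D : Fin 8) : Fin 4 := (![0, 1, 2, 3, 0, 1, 2, 3] : Fin 8 → Fin 4) D

/-- the second wall of a sector -/
def wb (D : Fin 8) : Fin 4 := (![1, 2, 3, 0, 1, 2, 3, 0] : Fin 8 → Fin 4) D

theorem sector_identity {R : Type*} [CommRing R] (ρ y : Fin 4 → R) (h : ∀ i, (1 + ρ i) * y i = 1)
    (C : Fin 8) :
    ∑ D : Fin 8, (y (wa D) + y (wb D) - 1) * ∏ i, (if ls C i = ls D i then 1 else ρ i) =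
      1 - ∏ i, ρ i := by
  have h0 := h 0
  have h1 := h 1
  have h2 := h 2
  have h3 := h 3
  have e1 : ∀ C D : Fin 8, ∏ i : Fin 4, (if ls C i = ls D i then 1 else ρ i) =
      (if ls C 0 = ls D 0 then 1 else ρ 0) * (if ls C 1 = ls D 1 then 1 else ρ 1) *
      (if ls C 2 = ls D 2 then 1 else ρ 2) * (if ls C 3 = ls D 3 then 1 else ρ 3) := by
    intro C D
    rw [Fin.prod_univ_four]
  simp only [e1, Fin.prod_univ_four]
  rw [Fin.sum_univ_eight]
  fin_cases C
  · simp [ls, wa, wb]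
    linear_combination h0 * (1 + ρ 1 * ρ 2 * ρ 3) + h1 * (1 + ρ 0 * ρ 3 * ρ 2) +
      h2 * (ρ 1 + ρ 0 * ρ 3) + h3 * (ρ 1 * ρ 2 + ρ 0)
  · simp [ls, wa, wb]
    linear_combination h1 * (1 + ρ 2 * ρ 3 * ρ 0) + h2 * (1 + ρ 1 * ρ 0 * ρ 3) +
      h3 * (ρ 2 + ρ 1 * ρ 0) + h0 * (ρ 2 * ρ 3 + ρ 1)
  · simp [ls, wa, wb]
    linear_combination h2 * (1 + ρ 3 * ρ 0 * ρ 1) + h3 * (1 + ρ 2 * ρ 1 * ρ 0) +
      h0 * (ρ 3 + ρ 2 * ρ 1) + h1 * (ρ 3 * ρ 0 + ρ 2)
  · simp [ls, wa, wb]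
    linear_combination h3 * (1 + ρ 0 * ρ 1 * ρ 2) + h0 * (1 + ρ 3 * ρ 2 * ρ 1) +
      h1 * (ρ 0 + ρ 3 * ρ 2) + h2 * (ρ 0 * ρ 1 + ρ 3)
  · simp [ls, wa, wb]
    linear_combination h0 * (1 + ρ 1 * ρ 2 * ρ 3) + h1 * (1 + ρ 0 * ρ 3 * ρ 2) +
      h2 * (ρ 1 + ρ 0 * ρ 3) + h3 * (ρ 1 * ρ 2 + ρ 0)
  · simp [ls, wa, wb]
    linear_combination h1 * (1 + ρ 2 * ρ 3 * ρ 0) + h2 * (1 + ρ 1 * ρ 0 * ρ 3) +
      h3 * (ρ 2 + ρ 1 * ρ 0) + h0 * (ρ 2 * ρ 3 + ρ 1)
  · simp [ls, wa, wb]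
    linear_combination h2 * (1 + ρ 3 * ρ 0 * ρ 1) + h3 * (1 + ρ 2 * ρ 1 * ρ 0) +
      h0 * (ρ 3 + ρ 2 * ρ 1) + h1 * (ρ 3 * ρ 0 + ρ 2)
  · simp [ls, wa, wb]
    linear_combination h3 * (1 + ρ 0 * ρ 1 * ρ 2) + h0 * (1 + ρ 3 * ρ 2 * ρ 1) +
      h1 * (ρ 0 + ρ 3 * ρ 2) + h2 * (ρ 0 * ρ 1 + ρ 3)

/-- the number of `true` values -/
def cnt (A : Fin 4 → Bool) : ℕ := (Finset.univ.filter fun i => A i = true).card

/-- the inverses used in the weighting -/
structure Inv (R : Type*) [CommRing R] (q : R) where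
  s : R
  y : R
  y3 : R
  t : ℕ → R
  hs : (1 + q ^ 2) * s = 1
  hy : (1 + q) * y = 1
  hy3 : (1 - q ^ 3) * y3 = 1
  ht : ∀ k, (1 - (-1) ^ k * q ^ (4 + 2 * k)) * t k = 1

section

variable {R : Type*} [CommRing R] {q : R} (I : Inv R q)

/-- local weights -/
def Inv.h (j : Bool) (b : Fin 3) : R :=
  bif j then (1 - q) * I.y * I.s * (![-q, 1 + q ^ 2, -q] : Fin 3 → R) b
  else (![I.s, 0, I.s] : Fin 3 → R) b

/-- local results -/
def Inv.K (j : Bool) (a : Fin 3) : R :=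
  bif j then (![0, (1 - q) ^ 2 * I.s, 0] : Fin 3 → R) a
  else (![1, 2 * q * I.s, 1] : Fin 3 → R) a

/-- the effective weight of a wall -/
def rho (q : R) (j : Bool) : R := bif j then -q ^ 3 else q

/-- the inverse of `1 + ρ` -/
def Inv.yy (j : Bool) : R := bif j then I.y3 else I.y

/-- the sector weights -/
def Inv.g (A : Fin 4 → Bool) (D : Fin 8) : R := I.t (cnt A) * (I.yy (A (wa D)) + I.yy (A (wb D)) - 1)

/-- the weighting -/
def Inv.w (a : T) : R := ∑ A : Fin 4 → Bool, I.g A a.1 * ∏ i, I.h (A i) (a.2 i)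

theorem Inv.K_add (a : Fin 3) : I.K false a + I.K true a = 1 := by
  have hs := I.hs
  fin_cases a
  · simp [Inv.K]
  · simp [Inv.K]
    linear_combination hs
  · simp [Inv.K]

theorem Inv.local_sum (a : Fin 3) (j e : Bool) :
    ∑ b : Fin 3, q ^ kap a b e * I.h j b = I.K j a * (bif e && j then -q ^ 2 else 1) := by
  have hs := I.hs
  have hy := I.hy
  rw [Fin.sum_univ_three]
  fin_cases a <;> cases j <;> cases e <;> simp [Inv.K, Inv.h, kap]
  · linear_combination hs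
  · linear_combination hs
  · ring
  · ring
  · ring
  · ring
  · linear_combination (1 - q) ^ 2 * I.s * hy
  · linear_combination -q ^ 2 * (1 - q) ^ 2 * I.s * hy
  · linear_combination hs
  · linear_combination hs
  · ring
  · ring

theorem Inv.yy_eq (j : Bool) : (1 + rho q j) * I.yy j = 1 := by
  have hy := I.hy
  have hy3 := I.hy3
  cases j
  · simp [rho, Inv.yy, hy]
  · simp [rho, Inv.yy]
    linear_combination hy3

theorem prod_rho (q : R) (A : Fin 4 → Bool) : ∏ i, rho q (A i) = (-1) ^ cnt A * q ^ (4 + 2 * cnt A) := by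
  have h : ∀ i, rho q (A i) = if A i = true then -q ^ 3 else q := by
    intro i
    cases A i <;> simp [rho]
  simp only [h]
  rw [Finset.prod_ite]
  simp only [Finset.prod_const]
  have h2 : (Finset.univ.filter fun i => ¬ A i = true).card = 4 - cnt A := by
    have := Finset.card_filter_add_card_filter_not (s := (Finset.univ : Finset (Fin 4)))
      (fun i => A i = true)
    simp only [cnt, Finset.card_univ, Fintype.card_fin] at this ⊢
    omega
  have h3 : cnt A ≤ 4 := by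
    have := Finset.card_filter_le (Finset.univ : Finset (Fin 4)) (fun i => A i = true)
    simpa [cnt] using this
  rw [h2]
  change (-q ^ 3) ^ cnt A * q ^ (4 - cnt A) = _
  have h4 : q ^ (4 + 2 * cnt A) = q ^ (3 * cnt A) * q ^ (4 - cnt A) := by
    rw [← pow_add]
    congr 1
    omega
  rw [h4, neg_pow, pow_mul]
  ring

theorem Inv.weighting (a : T) (hd_eq : ∀ a b : T, hd a b = ∑ i : Fin 4,
    ((if ls a.1 i = ls b.1 i then 0 else 1) + kap (a.2 i) (b.2 i) (ls a.1 i != ls b.1 i))) :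
    ∑ b : T, q ^ hd a b * I.w b = 1 := by
  obtain ⟨C, a⟩ := a
  -- the inner sum for a fixed sector and a fixed `A`
  have inner : ∀ (A : Fin 4 → Bool) (D : Fin 8),
      ∑ c : Fin 4 → Fin 3, q ^ hd (C, a) (D, c) * ∏ i, I.h (A i) (c i) =
        (∏ i, I.K (A i) (a i)) * ∏ i, (if ls C i = ls D i then 1 else rho q (A i)) := by
    intro A D
    have h1 : ∀ c : Fin 4 → Fin 3, q ^ hd (C, a) (D, c) * ∏ i, I.h (A i) (c i) =
        ∏ i, (q ^ (if ls C i = ls D i then 0 else 1) *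
          (q ^ kap (a i) (c i) (ls C i != ls D i) * I.h (A i) (c i))) := by
      intro c
      rw [hd_eq, ← Finset.prod_pow_eq_pow_sum, ← Finset.prod_mul_distrib]
      refine Finset.prod_congr rfl fun i _ => ?_
      rw [pow_add]
      ring
    simp only [h1]
    rw [← Fintype.piFinset_univ, ← Finset.prod_univ_sum (fun _ => Finset.univ)
      (fun i c => q ^ (if ls C i = ls D i then 0 else 1) *
          (q ^ kap (a i) c (ls C i != ls D i) * I.h (A i) c)), ← Finset.prod_mul_distrib]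
    refine Finset.prod_congr rfl fun i _ => ?_
    rw [← Finset.mul_sum, I.local_sum]
    by_cases h : ls C i = ls D i
    · simp [h]
    · have h' : (ls C i != ls D i) = true := by simpa using h
      rw [if_neg h, if_neg h, h']
      cases A i <;> simp [rho] <;> ring
  rw [Fintype.sum_prod_type]
  have h2 : ∀ D : Fin 8, ∑ c : Fin 4 → Fin 3, q ^ hd (C, a) (D, c) * I.w (D, c) =
      ∑ A : Fin 4 → Bool, I.g A D * ((∏ i, I.K (A i) (a i)) *
        ∏ i, (if ls C i = ls D i then 1 else rho q (A i))) := by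
    intro D
    simp only [Inv.w, Finset.mul_sum]
    rw [Finset.sum_comm]
    refine Finset.sum_congr rfl fun A _ => ?_
    rw [← inner A D, Finset.mul_sum]
    refine Finset.sum_congr rfl fun c _ => ?_
    ring
  simp only [h2]
  rw [Finset.sum_comm]
  have h3 : ∀ A : Fin 4 → Bool, ∑ D : Fin 8, I.g A D * ((∏ i, I.K (A i) (a i)) *
        ∏ i, (if ls C i = ls D i then 1 else rho q (A i))) = ∏ i, I.K (A i) (a i) := by
    intro A
    have h4 := sector_identity (fun i => rho q (A i)) (fun i => I.yy (A i)) (fun i => I.yy_eq (A i)) C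
    have h5 := I.ht (cnt A)
    rw [prod_rho] at h4
    have h6 : ∑ D : Fin 8, I.g A D * ((∏ i, I.K (A i) (a i)) *
        ∏ i, (if ls C i = ls D i then 1 else rho q (A i))) =
        I.t (cnt A) * (∏ i, I.K (A i) (a i)) * ∑ D : Fin 8, (I.yy (A (wa D)) + I.yy (A (wb D)) - 1) *
          ∏ i, (if ls C i = ls D i then 1 else rho q (A i)) := by
      rw [Finset.mul_sum]
      refine Finset.sum_congr rfl fun D _ => ?_
      simp only [Inv.g]
      ring
    rw [h6, h4]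
    linear_combination (∏ i, I.K (A i) (a i)) * h5
  simp only [h3]
  have h7 : ∑ A : Fin 4 → Bool, ∏ i, I.K (A i) (a i) = ∏ i : Fin 4, ∑ j : Bool, I.K j (a i) := by
    rw [Finset.prod_univ_sum, Fintype.piFinset_univ]
  rw [h7]
  refine Finset.prod_eq_one fun i _ => ?_
  rw [Fintype.sum_bool, add_comm]
  exact I.K_add (a i)

/-- the sum of the local weights -/
def Inv.S (j : Bool) : R := bif j then (1 - q) ^ 3 * I.y * I.s else 2 * I.s

theorem Inv.total : ∑ a : T, I.w a = ∑ A : Fin 4 → Bool,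
    I.t (cnt A) * (4 * ∑ i, I.yy (A i) - 8) * ∏ i, I.S (A i) := by
  rw [Fintype.sum_prod_type]
  simp only [Inv.w]
  have h1 : ∀ D : Fin 8, ∑ c : Fin 4 → Fin 3, ∑ A : Fin 4 → Bool, I.g A D * ∏ i, I.h (A i) (c i) =
      ∑ A : Fin 4 → Bool, I.g A D * ∏ i, I.S (A i) := by
    intro D
    rw [Finset.sum_comm]
    refine Finset.sum_congr rfl fun A _ => ?_
    rw [← Finset.mul_sum]
    congr 1
    rw [← Fintype.piFinset_univ, ← Finset.prod_univ_sum (fun _ => Finset.univ)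
      (fun i c => I.h (A i) c)]
    refine Finset.prod_congr rfl fun i _ => ?_
    rw [Fin.sum_univ_three]
    cases A i <;> simp [Inv.h, Inv.S] <;> ring
  simp only [h1]
  rw [Finset.sum_comm]
  refine Finset.sum_congr rfl fun A _ => ?_
  rw [← Finset.sum_mul]
  congr 1
  simp only [Inv.g]
  rw [← Finset.mul_sum, Fin.sum_univ_eight, Fin.sum_univ_four]
  simp [wa, wb]
  ring

end

end Pool.Agent.Helper446_MAG
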